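import Pool.Agent.H867.FT.Gen2
import Pool.Agent.H975.FT867POW

/-!
# TRZ: torsion of the canonical class, no root modulo `𝔪²`
-/

set_option autoImplicit false

namespace Pool.Agent.H264.FTTrz

open Polynomial Pool.Agent.H867.FT

/-- integrality by means of the valuation rings -/
theorem mem_of_val {R K : Type} [CommRing R] [IsDomain R] [IsIntegrallyClosed R] [Field K]
    [Algebra R K] [IsFractionRing R K] (u : K)
    (h : ∀ V : ValuationSubring K, (∀ r : R, algebraMap R K r ∈ V) → u ∈ V) :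
    ∃ r : R, algebraMap R K r = u := by
  by_contra hcon
  have hx : u ∉ (integralClosure R K).toSubring := by
    intro hu
    have hu' : IsIntegral R u := hu
    exact hcon (IsIntegrallyClosed.isIntegral_iff.1 hu')
  obtain ⟨V, hV, huV⟩ := Subring.exists_le_valuationSubring_of_isIntegrallyClosedIn hx
  refine huV (h V fun r => ?_)
  exact hV ((integralClosure R K).algebraMap_mem r)

/-- two polynomials without common root modulo the maximal ideal, one of them monic -/
theorem bezout {P : Type} [CommRing P] [IsLocalRing P]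
    [IsAlgClosed (IsLocalRing.ResidueField P)] {A B : P[X]} (hA : A.Monic)
    (h : ∀ l : P, A.eval l ∈ IsLocalRing.maximalIdeal P →
      B.eval l ∉ IsLocalRing.maximalIdeal P) :
    ∃ U U' : P[X], U * A + U' * B = 1 := by
  by_contra hcon
  have hne : Ideal.span {A, B} ≠ ⊤ := by
    intro htop
    have h1 : (1 : P[X]) ∈ Ideal.span {A, B} := by rw [htop]; trivial
    rw [Ideal.mem_span_pair] at h1
    exact hcon h1
  obtain ⟨M, hM, hle⟩ := Ideal.exists_le_maximal _ hne
  have hAM : A ∈ M := hle (Ideal.subset_span (by simp))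
  have hBM : B ∈ M := hle (Ideal.subset_span (by simp))
  let _ : Field (P[X] ⧸ M) := Ideal.Quotient.field M
  obtain ⟨ξ, hξ⟩ : ∃ ξ : P[X] ⧸ M, ξ = Ideal.Quotient.mk M X := ⟨_, rfl⟩
  have hae : ∀ G : P[X], aeval ξ G = Ideal.Quotient.mk M G := by
    intro G
    have h1 : aeval ξ G = (Ideal.Quotient.mkₐ P M) (aeval X G) := by
      rw [← Polynomial.aeval_algHom_apply, hξ]
      rfl
    rw [h1, aeval_X_left_apply]
    rfl
  have hξi : IsIntegral P ξ := by
    refine ⟨A, hA, ?_⟩
    change aeval ξ A = 0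
    rw [hae]
    exact Ideal.Quotient.eq_zero_iff_mem.2 hAM
  have hint : Algebra.IsIntegral P (P[X] ⧸ M) := by
    refine ⟨fun y => ?_⟩
    obtain ⟨G, rfl⟩ := Ideal.Quotient.mk_surjective y
    rw [← hae]
    exact adjoin_le_integralClosure hξi (Polynomial.aeval_mem_adjoin_singleton P ξ)
  have hker : ∀ p : P, algebraMap P (P[X] ⧸ M) p = 0 ↔ p ∈ IsLocalRing.maximalIdeal P := by
    have hmax : (Ideal.comap (algebraMap P (P[X] ⧸ M)) ⊥).IsMaximal := by
      have : (⊥ : Ideal (P[X] ⧸ M)).IsMaximal := Ideal.bot_isMaximal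
      exact Ideal.isMaximal_comap_of_isIntegral_of_isMaximal _
    intro p
    rw [← IsLocalRing.eq_maximalIdeal hmax, Ideal.mem_comap, Ideal.mem_bot]
  let f : IsLocalRing.ResidueField P →+* (P[X] ⧸ M) :=
    Ideal.Quotient.lift (IsLocalRing.maximalIdeal P) (algebraMap P (P[X] ⧸ M))
      (fun p hp => (hker p).2 hp)
  have hf : ∀ p : P, f (IsLocalRing.residue P p) = algebraMap P (P[X] ⧸ M) p := fun p => rfl
  have hfi : f.IsIntegral := by
    intro y
    obtain ⟨G, hG, hG0⟩ := hint.isIntegral y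
    refine ⟨G.map (IsLocalRing.residue P), hG.map _, ?_⟩
    rw [Polynomial.eval₂_map]
    exact hG0
  obtain ⟨k, hk⟩ := (IsAlgClosed.ringHom_bijective_of_isIntegral f hfi).2 ξ
  obtain ⟨l, rfl⟩ := IsLocalRing.residue_surjective k
  rw [hf] at hk
  have hev : ∀ G : P[X], G ∈ M → G.eval l ∈ IsLocalRing.maximalIdeal P := by
    intro G hG
    rw [← hker, ← Polynomial.aeval_algebraMap_apply_eq_algebraMap_eval, hk, hae]
    exact Ideal.Quotient.eq_zero_iff_mem.2 hG
  exact h l (hev A hAM) (hev B hBM)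

theorem aeval_mem_val {P K : Type} [CommRing P] [Field K] [Algebra P K] (V : ValuationSubring K)
    (hP : ∀ p : P, algebraMap P K p ∈ V) {x : K} (hx : x ∈ V) (G : P[X]) : aeval x G ∈ V := by
  rw [Polynomial.aeval_eq_sum_range]
  refine sum_mem fun i _ => ?_
  rw [Algebra.smul_def]
  exact mul_mem (hP _) (pow_mem hx _)

/-- the key integrality -/
theorem key {R K : Type} [CommRing R] [IsDomain R] [IsIntegrallyClosed R] [Field K]
    [Algebra R K] [IsFractionRing R K] {P : Type} [CommRing P] [Algebra P R] [Algebra P K]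
    [IsScalarTower P R K] {a z b₁ c₁ d₁ : P} {x t₀ : K} {U U' : P[X]} (ht₀ : t₀ ≠ 0)
    (h1 : t₀ * (algebraMap P K z * aeval x U - algebraMap P K a * aeval x U') = 1)
    (h2 : algebraMap P K z * t₀ = x ^ 3 + algebraMap P K b₁ * x ^ 2 + algebraMap P K c₁ * x +
      algebraMap P K d₁) (i : ℕ) (hi : i ≤ 3) :
    ∃ r : R, algebraMap R K r = x ^ i / t₀ := by
  refine mem_of_val _ fun V hV => ?_
  have hP : ∀ p : P, algebraMap P K p ∈ V := by
    intro p
    rw [IsScalarTower.algebraMap_apply P R K]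
    exact hV _
  by_cases hx : x ∈ V
  · have h3 : x ^ i / t₀ =
        x ^ i * (algebraMap P K z * aeval x U - algebraMap P K a * aeval x U') := by
      rw [div_eq_iff ht₀, mul_assoc, mul_comm _ t₀, h1, mul_one]
    rw [h3]
    exact mul_mem (pow_mem hx _) (sub_mem (mul_mem (hP _) (aeval_mem_val V hP hx _))
      (mul_mem (hP _) (aeval_mem_val V hP hx _)))
  · have hx0 : x ≠ 0 := by
      rintro rfl
      exact hx V.zero_mem
    obtain ⟨y, hy⟩ : ∃ y, y = x⁻¹ := ⟨_, rfl⟩
    have hxy : x * y = 1 := by rw [hy]; exact mul_inv_cancel₀ hx0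
    have hyV : y ∈ V := by
      rw [hy]
      exact (V.mem_or_inv_mem x).resolve_left hx
    have hv : V.valuation y < 1 := by
      have h3 : 1 < V.valuation x := by
        rw [← not_le, ValuationSubring.valuation_le_one_iff]
        exact hx
      have h4 : V.valuation x * V.valuation y = 1 := by
        rw [← map_mul, hxy, map_one]
      by_contra hcon
      push Not at hcon
      have h5 : V.valuation x * 1 ≤ V.valuation x * V.valuation y :=
        mul_le_mul_right hcon _
      rw [h4, mul_one] at h5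
      exact absurd h5 (not_le.2 h3)
    obtain ⟨w, hw⟩ : ∃ w, w = algebraMap P K b₁ + algebraMap P K c₁ * y +
      algebraMap P K d₁ * y ^ 2 := ⟨_, rfl⟩
    have hwV : w ∈ V := by
      rw [hw]
      exact add_mem (add_mem (hP _) (mul_mem (hP _) hyV)) (mul_mem (hP _) (pow_mem hyV _))
    have hyw : V.valuation (y * w) < 1 := by
      rw [map_mul]
      have h3 : V.valuation w ≤ 1 := (ValuationSubring.valuation_le_one_iff V w).2 hwV
      calc V.valuation y * V.valuation w ≤ V.valuation y * 1 := mul_le_mul_right h3 _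
        _ < 1 := by rw [mul_one]; exact hv
    have hu : V.valuation (1 + y * w) = 1 := Valuation.map_one_add_of_lt _ hyw
    have hu0 : 1 + y * w ≠ 0 := by
      intro h0
      rw [h0, map_zero] at hu
      exact zero_ne_one hu
    have hinv : (1 + y * w)⁻¹ ∈ V := by
      rw [← ValuationSubring.valuation_le_one_iff, map_inv₀, hu, inv_one]
    have hmul : algebraMap P K z * t₀ = x ^ 3 * (1 + y * w) := by
      rw [h2, hw]
      have e1 : x ^ 2 * (x * y) = x ^ 2 := by rw [hxy, mul_one]
      have e2 : x * (x * y) ^ 2 = x := by rw [hxy, one_pow, mul_one]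
      have e3 : (x * y) ^ 3 = 1 := by rw [hxy, one_pow]
      linear_combination -(algebraMap P K b₁) * e1 - (algebraMap P K c₁) * e2 -
        (algebraMap P K d₁) * e3
    have h6 : x ^ i / t₀ = y ^ (3 - i) * (algebraMap P K z * (1 + y * w)⁻¹) := by
      rw [div_eq_iff ht₀]
      have h7 : y ^ (3 - i) * x ^ 3 = x ^ i := by
        have h8 : x ^ 3 = x ^ (3 - i) * x ^ i := by rw [← pow_add]; congr 1; omega
        rw [h8, ← mul_assoc, ← mul_pow, mul_comm y x, hxy, one_pow, one_mul]
      calc x ^ i = y ^ (3 - i) * x ^ 3 := h7.symm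
        _ = y ^ (3 - i) * (x ^ 3 * (1 + y * w) * (1 + y * w)⁻¹) := by
            rw [mul_assoc (x ^ 3), mul_inv_cancel₀ hu0, mul_one]
        _ = y ^ (3 - i) * (algebraMap P K z * t₀ * (1 + y * w)⁻¹) := by rw [hmul]
        _ = _ := by ring
    rw [h6]
    exact mul_mem (pow_mem hyV _) (mul_mem (hP _) hinv)

theorem trz : Pool.Agent.H867.FT.S_TRZ := by
  intro P R L K _ _ _ _ _ _ _ _ _ _ _ _ _ _ _ _ _ _ _ _ C a b c d z x y₀ ω θ hcub hz ha hzm
    hb hc hd hF
  obtain ⟨b₁, b₂, hb⟩ := Ideal.mem_span_pair.1 hb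
  obtain ⟨c₁, c₂, hc⟩ := Ideal.mem_span_pair.1 hc
  obtain ⟨d₁, d₂, hd⟩ := Ideal.mem_span_pair.1 hd
  have hPR : Function.Injective (algebraMap P K) := by
    rw [IsScalarTower.algebraMap_eq P L K]
    exact (algebraMap L K).injective.comp (IsFractionRing.injective P L)
  have ha0 : algebraMap P K a ≠ 0 := fun h => hcub.ha (hPR (by rw [h, map_zero]))
  have hz0 : algebraMap P K z ≠ 0 := fun h => hz (hPR (by rw [h, map_zero]))
  obtain ⟨A, hA⟩ : ∃ A : P[X], A = X ^ 3 + (Polynomial.C b₁ * X ^ 2 + Polynomial.C c₁ * X +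
    Polynomial.C d₁) := ⟨_, rfl⟩
  obtain ⟨B, hB⟩ : ∃ B : P[X], B = Polynomial.C b₂ * X ^ 2 + Polynomial.C c₂ * X +
    Polynomial.C d₂ := ⟨_, rfl⟩
  have hAm : A.Monic := by
    rw [hA]
    refine Polynomial.monic_X_pow_add ?_
    exact lt_of_le_of_lt Polynomial.degree_quadratic_le (by norm_num)
  have hAB : ∀ l : P, A.eval l ∈ IsLocalRing.maximalIdeal P →
      B.eval l ∉ IsLocalRing.maximalIdeal P := by
    intro l hl hl'
    refine hF l ?_
    have e : a * l ^ 3 + b * l ^ 2 + c * l + d = a * A.eval l + z * B.eval l := by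
      rw [hA, hB, ← hb, ← hc, ← hd]
      simp only [Polynomial.eval_add, Polynomial.eval_mul, Polynomial.eval_pow,
        Polynomial.eval_X, Polynomial.eval_C]
      ring
    rw [e, pow_two]
    exact Ideal.add_mem _ (Ideal.mul_mem_mul ha hl) (Ideal.mul_mem_mul hzm hl')
  obtain ⟨U, U', hU⟩ := bezout hAm hAB
  obtain ⟨Ax, hAx⟩ : ∃ Ax, Ax = aeval x A := ⟨_, rfl⟩
  obtain ⟨Bx, hBx⟩ : ∃ Bx, Bx = aeval x B := ⟨_, rfl⟩
  have hAx' : Ax = x ^ 3 + algebraMap P K b₁ * x ^ 2 + algebraMap P K c₁ * x +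
      algebraMap P K d₁ := by
    rw [hAx, hA]
    simp only [map_add, map_mul, map_pow, aeval_X, aeval_C]
    ring
  have hBx' : Bx = algebraMap P K b₂ * x ^ 2 + algebraMap P K c₂ * x +
      algebraMap P K d₂ := by
    rw [hBx, hB]
    simp only [map_add, map_mul, map_pow, aeval_X, aeval_C]
  have hrel : algebraMap P K a * Ax + algebraMap P K z * Bx = 0 := by
    have h3 := hcub.root
    rw [← hb, ← hc, ← hd] at h3
    simp only [map_add, map_mul] at h3
    rw [hAx', hBx']
    linear_combination h3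
  have hUx : aeval x U * Ax + aeval x U' * Bx = 1 := by
    have h3 := congrArg (aeval x) hU
    simp only [map_add, map_mul, map_one] at h3
    rw [hAx, hBx]
    exact h3
  obtain ⟨t₀, ht⟩ : ∃ t₀, t₀ = Ax / algebraMap P K z := ⟨_, rfl⟩
  have hzt : algebraMap P K z * t₀ = Ax := by
    rw [ht]
    field_simp
  have hat : algebraMap P K a * t₀ = -Bx := by
    have h3 : algebraMap P K z * (algebraMap P K a * t₀ + Bx) = 0 := by
      linear_combination hrel + algebraMap P K a * hzt
    have h4 := (mul_eq_zero.1 h3).resolve_left hz0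
    linear_combination h4
  have h1 : t₀ * (algebraMap P K z * aeval x U - algebraMap P K a * aeval x U') = 1 := by
    linear_combination hUx + aeval x U * hzt - aeval x U' * hat
  have ht0 : t₀ ≠ 0 := left_ne_zero_of_mul_eq_one h1
  have hpow := Pool.Agent.H975.FTPow.pow P R K C a b c d x y₀ ω θ hcub.hy hcub.root hcub.hω
    hcub.hθ hcub.gen hcub.hC 3 (by norm_num)
  have hxm : ∀ i : ℕ, i ≤ 3 → x ^ i ∈ Submodule.span P (Set.range fun i : Fin (3 + 1) =>
      x ^ (i : ℕ)) := fun i hi => Submodule.subset_span ⟨⟨i, by omega⟩, rfl⟩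
  have hpm : ∀ (p : P) (i : ℕ), i ≤ 3 → algebraMap P K p * x ^ i ∈
      Submodule.span P (Set.range fun i : Fin (3 + 1) => x ^ (i : ℕ)) := by
    intro p i hi
    rw [← Algebra.smul_def]
    exact Submodule.smul_mem _ p (hxm i hi)
  refine ⟨y₀ ^ 3 * t₀, mul_ne_zero (pow_ne_zero _ hcub.hy) ht0, ?_, ?_, ?_⟩
  · intro y hy
    obtain ⟨m, hm, rfl⟩ := (hpow y).1 hy
    have hmr : ∃ r : R, m = algebraMap R K r * t₀ := by
      clear hy
      induction hm using Submodule.span_induction with
      | mem m hm =>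
        obtain ⟨i, rfl⟩ := hm
        obtain ⟨r, hr⟩ := key (R := R) ht0 h1 (hzt.trans hAx') (i : ℕ) (by omega)
        refine ⟨r, ?_⟩
        rw [hr]
        change x ^ (i : ℕ) = _
        field_simp
      | zero => exact ⟨0, by simp⟩
      | add m m' _ _ hm hm' =>
        obtain ⟨r, hr⟩ := hm
        obtain ⟨r', hr'⟩ := hm'
        exact ⟨r + r', by rw [map_add, add_mul, ← hr, ← hr']⟩
      | smul p m _ hm =>
        obtain ⟨r, hr⟩ := hm
        exact ⟨p • r, by rw [Algebra.smul_def, Algebra.smul_def, map_mul,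
          ← IsScalarTower.algebraMap_apply P R K, mul_assoc, ← hr]⟩
    obtain ⟨r, hr⟩ := hmr
    exact ⟨r, by rw [hr]; ring⟩
  · rw [hpow]
    refine ⟨-Bx, ?_, by linear_combination y₀ ^ 3 * hat⟩
    refine Submodule.neg_mem _ ?_
    rw [hBx']
    refine Submodule.add_mem _ (Submodule.add_mem _ (hpm _ 2 (by norm_num)) ?_) ?_
    · have := hpm c₂ 1 (by norm_num)
      rwa [pow_one] at this
    · have := hpm d₂ 0 (by norm_num)
      rwa [pow_zero, mul_one] at this
  · rw [hpow]
    refine ⟨Ax, ?_, by linear_combination y₀ ^ 3 * hzt⟩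
    rw [hAx']
    refine Submodule.add_mem _ (Submodule.add_mem _ (Submodule.add_mem _ (hxm 3 le_rfl)
      (hpm _ 2 (by norm_num))) ?_) ?_
    · have := hpm c₁ 1 (by norm_num)
      rwa [pow_one] at this
    · have := hpm d₁ 0 (by norm_num)
      rwa [pow_zero, mul_one] at this

end Pool.Agent.H264.FTTrz
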