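import Pool.Agent.H724.DL.Stm

/-!
# DL-A2 (helper264): sequential decompositions
-/

set_option autoImplicit false

namespace Pool.Agent.H264.DLA2

open Pool.Agent.H724.DL

lemma fuo_of {α : Type} {S : Set (Set (List α))} {R : Set (List α × List α)}
    (h : ∀ p q, (p, q) ∈ R → ∃ A ∈ S, ∃ B ∈ S, p ∈ A ∧ q ∈ B ∧ ∀ p' ∈ A, ∀ q' ∈ B, (p', q') ∈ R) :
    FUO S R := by
  refine ⟨{q | (q.1 ∈ S ∧ q.2 ∈ S) ∧ ∀ p' ∈ q.1, ∀ q' ∈ q.2, (p', q') ∈ R}, fun q hq => hq.1, ?_⟩
  ext ⟨p, q⟩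
  simp only [Set.mem_iUnion, Set.mem_prod, exists_prop]
  constructor
  · intro hpq
    obtain ⟨A, hA, B, hB, h1, h2, h3⟩ := h p q hpq
    exact ⟨(A, B), ⟨⟨hA, hB⟩, h3⟩, h1, h2⟩
  · rintro ⟨⟨A, B⟩, ⟨-, h3⟩, h1, h2⟩
    exact h3 p h1 q h2

lemma foldl_none {α σ : Type} {f : Option σ → α → Option σ} (hf : ∀ a, f none a = none)
    (w : List α) : w.foldl f none = none := by
  induction w with
  | nil => rfl
  | cons a w ih => rw [List.foldl_cons, hf, ih]

theorem a2 : S_A2 := by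
  intro α σ f hf T L hL
  rcases hL with ⟨v, s, t, rfl⟩ | ⟨x, hx, rfl⟩ | ⟨j, hj, rfl⟩
  · refine fuo_of fun p q hpq => ?_
    obtain ⟨w, hw, hs⟩ := hpq
    obtain ⟨w1, w2, v1, v2, rfl, rfl, h1, h2⟩ := hs.split_left p q rfl
    refine ⟨Dv v1 (Lg f s (w1.foldl f s)), Or.inl ⟨_, _, _, rfl⟩,
      Dv v2 (Lg f (w1.foldl f s) t), Or.inl ⟨_, _, _, rfl⟩, ⟨w1, Or.inl rfl, h1⟩,
      ⟨w2, ?_, h2⟩, ?_⟩
    · have hw' : (w1 ++ w2).foldl f s = t ∨ (w1 ++ w2).foldl f s = none := hw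
      rw [List.foldl_append] at hw'
      exact hw'
    · rintro p' ⟨w1', hw1, hs1⟩ q' ⟨w2', hw2, hs2⟩
      refine ⟨w1' ++ w2', ?_, hs1.append hs2⟩
      change (w1' ++ w2').foldl f s = t ∨ (w1' ++ w2').foldl f s = none
      rw [List.foldl_append]
      rcases hw1 with h3 | h3
      · rw [h3]; exact hw2
      · rw [h3]; exact Or.inr (foldl_none hf w2')
  · refine fuo_of fun p q hpq => ?_
    have hpq' : p ++ q = x := hpq
    have hl : p.length + q.length < T := by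
      rw [← List.length_append, hpq']; exact hx
    refine ⟨{p}, Or.inr (Or.inl ⟨p, by omega, rfl⟩), {q}, Or.inr (Or.inl ⟨q, by omega, rfl⟩), rfl,
      rfl, ?_⟩
    intro p' hp' q' hq'
    rw [Set.mem_singleton_iff] at hp' hq'
    rw [hp', hq']
    exact hpq
  · refine fuo_of fun p q hpq => ?_
    have hpq' : j ≤ (p ++ q).length := hpq
    rw [List.length_append] at hpq'
    rcases Nat.lt_or_ge p.length j with h1 | h1
    · refine ⟨{p}, Or.inr (Or.inl ⟨p, by omega, rfl⟩), Gj α (j - p.length),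
        Or.inr (Or.inr ⟨_, by omega, rfl⟩), rfl, ?_, ?_⟩
      · change j - p.length ≤ q.length
        omega
      · intro p' hp' q' hq'
        rw [Set.mem_singleton_iff] at hp'
        have h2 : j - p.length ≤ q'.length := hq'
        change j ≤ (p' ++ q').length
        rw [List.length_append, hp']
        omega
    · refine ⟨Gj α j, Or.inr (Or.inr ⟨_, hj, rfl⟩), Gj α 0, Or.inr (Or.inr ⟨_, by omega, rfl⟩), h1,
        Nat.zero_le _, ?_⟩
      intro p' hp' q' _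
      have h2 : j ≤ p'.length := hp'
      change j ≤ (p' ++ q').length
      rw [List.length_append]
      omega

end Pool.Agent.H264.DLA2
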