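import Pool.Agent.H724.DL.Stm

/-!
# DL-INV2d (helper264): the invariant, state `s4`
-/

set_option autoImplicit false

namespace Pool.Agent.H264.DLInv2d

open Pool.Agent.H724.DL

lemma cast_mod5 {a r : ℕ} (h : a % 5 = r) : (a : ZMod 5) = (r : ZMod 5) := by
  rw [← h, ZMod.natCast_mod]

lemma succ_mod {a r : ℕ} (h : a % 5 = r) (hr : r + 1 < 5) :
    (a + 1) % 5 = r + 1 ∧ (a + 1) / 5 = a / 5 := by omega

/-- labels at the addresses with a nonzero digit -/
lemma u_of (h : S_CAN) {Γ : Type} (c : ℕ → ℕ → Γ) (m A r : ℕ) (hA : A % 5 = r) (hr : 0 < r) :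
    (can c (5 ^ m * A)).u = ((m : ZMod 3), (r : ZMod 5)) := by
  have h1 := (h Γ c m A).2.2.2.2 (by omega)
  rw [h1, cast_mod5 hA]

/-- labels at the addresses with the last digit zero -/
lemma u_zero (h : S_CAN) {Γ : Type} (c : ℕ → ℕ → Γ) (m B : ℕ) (hB : B % 5 = 0)
    (hne : ((B / 5 : ℕ) : ZMod 5) ≠ 0) :
    (can c (5 ^ m * B)).u = ((m : ZMod 3) + 1, ((B / 5 : ℕ) : ZMod 5)) := by
  have h1 : ¬ (B / 5) % 5 = 0 := by
    intro h2
    apply hne
    have := cast_mod5 h2
    rw [this, Nat.cast_zero]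
  have h2 := (h Γ c (m + 1) (B / 5)).2.2.2.2 h1
  have h3 : 5 ^ (m + 1) * (B / 5) = 5 ^ m * B := by
    have : B = 5 * (B / 5) := by omega
    conv_rhs => rw [this]
    ring
  rw [h3] at h2
  rw [h2]
  push_cast
  rfl

/-- the parent digit -/
lemma pd_of (h : S_CAN) {Γ : Type} (c : ℕ → ℕ → Γ) (m B : ℕ) (hB : B % 5 = 0) (hB0 : 0 < B) :
    (can c (5 ^ m * (B + 1))).pd = (can c (5 ^ m * B)).u.2 := by
  have h1 := (h Γ c (m + 1) (B / 5)).2.1 (by omega) m (by omega) (5 ^ m)
    (Nat.pow_lt_pow_right (by norm_num) (by omega))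
    (Nat.mod_eq_of_lt (Nat.pow_lt_pow_right (by norm_num) (by omega)))
  have h3 : 5 ^ (m + 1) * (B / 5) = 5 ^ m * B := by
    have : B = 5 * (B / 5) := by omega
    conv_rhs => rw [this]
    ring
  rw [h3, Nat.add_sub_cancel] at h1
  rw [← h1]
  congr 2

theorem inv2d (h : S_CAN) : S_INV2d := by
  intro Γ W R n c m A B i l P Q hI
  obtain ⟨hl, hc⟩ := hI
  subst hl
  have n23 : ((2 : ℕ) : ZMod 5) ≠ ((3 : ℕ) : ZMod 5) := by decide
  rcases hc with ⟨hA, hB, hP, hQ⟩ | ⟨hB0, hA, hB, hu, hP, hQ⟩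
  · -- `A % 5 = 1`, `B % 5 = 4`
    have hA' : (A + 1) % 5 = 2 := by omega
    have hAd : (A + 1) / 5 = A / 5 := by omega
    have hB' : (B + 1) % 5 = 0 := by omega
    have hBd : (B + 1) / 5 = B / 5 + 1 := by omega
    have hx := u_of h c m (A + 1) 2 hA' (by norm_num)
    have hQ' : (((B + 1) / 5 : ℕ) : ZMod 5) - 1 ∈ Q := by
      rw [hBd]; push_cast; rw [add_sub_cancel_right]; exact_mod_cast hQ
    have hP' : (((A + 1) / 5 : ℕ) : ZMod 5) ∈ P := by rw [hAd]; exact hP
    by_cases hy : (can c (5 ^ m * (B + 1))).u = ((m : ZMod 3), (2 : ZMod 5))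
    · -- invisible pair
      refine ⟨.s4 (m : ZMod 3) P Q, i, ?_, rfl, Or.inr ⟨by omega, hA', hB', hy, hP', hQ'⟩⟩
      have he : (can c (5 ^ m * (A + 1))).u = (can c (5 ^ m * (B + 1))).u := by
        rw [hx, hy]; rfl
      simp only [dn, dstep, if_pos he, istep, Option.bind_some, Option.map_some, act]
    · -- visible pair
      have he : ¬ (can c (5 ^ m * (A + 1))).u = (can c (5 ^ m * (B + 1))).u := by
        intro he
        apply hy
        rw [← he, hx]; rfl
      have hmem : (((B + 1) / 5 : ℕ) : ZMod 5) ∈ upd (m : ZMod 3) Q (can c (5 ^ m * (B + 1))).u := by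
        rw [mem_upd]
        refine ⟨hQ', ?_⟩
        by_cases h0 : (((B + 1) / 5 : ℕ) : ZMod 5) = 0
        · exact Or.inl h0
        · exact Or.inr (u_zero h c m (B + 1) hB' h0)
      have hne : upd (m : ZMod 3) Q (can c (5 ^ m * (B + 1))).u ≠ ∅ := by
        intro h0
        rw [h0] at hmem
        exact absurd hmem (Finset.notMem_empty _)
      have hx' : (can c (5 ^ m * (A + 1))).u = ((m : ZMod 3), (2 : ZMod 5)) := by
        rw [hx]; rfl
      refine ⟨.s5 (m : ZMod 3) P (upd (m : ZMod 3) Q (can c (5 ^ m * (B + 1))).u)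
        (can c (5 ^ m * (B + 1))).u.2
        (if upd (m : ZMod 3) Q (can c (5 ^ m * (B + 1))).u = {3} then some R.w0 else none), 0, ?_,
        rfl, by omega, hA', hB', hP', hmem, rfl, ?_⟩
      · simp only [dn, dstep, if_neg he, vstep, if_pos hx', if_neg hne, Option.bind_some,
          Option.map_some, act]
      · intro w' hw'
        split_ifs at hw' with h3
        · refine ⟨h3, ?_⟩
          have : w' = R.w0 := (Option.some.inj hw').symm
          rw [this]
          rfl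
  · -- `A % 5 = 2`, `B % 5 = 0`
    have hA' : (A + 1) % 5 = 3 := by omega
    have hAd : (A + 1) / 5 = A / 5 := by omega
    have hB' : (B + 1) % 5 = 1 := by omega
    have hBd : (B + 1) / 5 = B / 5 := by omega
    have hx : (can c (5 ^ m * (A + 1))).u = ((m : ZMod 3), (3 : ZMod 5)) := by
      rw [u_of h c m (A + 1) 3 hA' (by norm_num)]; rfl
    have hy : (can c (5 ^ m * (B + 1))).u = ((m : ZMod 3), (1 : ZMod 5)) := by
      rw [u_of h c m (B + 1) 1 hB' (by norm_num)]
      simp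
    have hP' : (((A + 1) / 5 : ℕ) : ZMod 5) ∈ P := by rw [hAd]; exact hP
    have h0 : ((B / 5 : ℕ) : ZMod 5) = 0 := by
      by_contra h0
      have h1 := u_zero h c m B hB h0
      rw [hu] at h1
      have h2 : (m : ZMod 3) = (m : ZMod 3) + 1 := congrArg Prod.fst h1
      have h3 : (1 : ZMod 3) = 0 := by
        have := congrArg (fun z : ZMod 3 => z - (m : ZMod 3)) h2
        simp at this
      exact absurd h3 (by decide)
    have hmem : (((B + 1) / 5 : ℕ) : ZMod 5) ∈ upd (m : ZMod 3) Q ((m : ZMod 3), (2 : ZMod 5)) := by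
      rw [mem_upd, hBd]
      exact ⟨hQ, Or.inl h0⟩
    have hpd : (can c (5 ^ m * (B + 1))).pd = 2 := by
      rw [pd_of h c m B hB hB0, hu]
    have he : ¬ (can c (5 ^ m * (A + 1))).u = (can c (5 ^ m * (B + 1))).u := by
      rw [hx, hy]
      intro h1
      have h2 : (3 : ZMod 5) = 1 := congrArg Prod.snd h1
      exact absurd h2 (by decide)
    have he2 : ¬ (can c (5 ^ m * (A + 1))).u = ((m : ZMod 3), (2 : ZMod 5)) := by
      rw [hx]
      intro h1
      have h2 : (3 : ZMod 5) = 2 := congrArg Prod.snd h1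
      exact absurd h2 (by decide)
    have he3 : (can c (5 ^ m * (A + 1))).u = ((m : ZMod 3), (3 : ZMod 5)) ∧
        (can c (5 ^ m * (B + 1))).u = ((m : ZMod 3), (1 : ZMod 5)) := ⟨hx, hy⟩
    have he4 : ¬ (upd (m : ZMod 3) Q ((m : ZMod 3), (2 : ZMod 5)) = ∅ ∨
        (can c (5 ^ m * (B + 1))).pd ≠ 2) := by
      rintro (h1 | h1)
      · rw [h1] at hmem
        exact absurd hmem (Finset.notMem_empty _)
      · exact h1 hpd
    refine ⟨.s1 (m : ZMod 3) P (upd (m : ZMod 3) Q ((m : ZMod 3), (2 : ZMod 5))), 0, ?_,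
      Or.inr ⟨rfl, hA', hB', hP', hmem⟩⟩
    simp only [dn, dstep, if_neg he, vstep, if_neg he2, if_pos he3, if_neg he4, Option.bind_some,
      Option.map_some, act]

end Pool.Agent.H264.DLInv2d
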