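import Pool.Agent.H979.FR.Stm

set_option autoImplicit false

open MeasureTheory ProbabilityTheory Finset
open scoped ENNReal NNReal

/-!
# The averaged kernel of the simple random walk: KAP and KDEC
-/

namespace Pool.Agent.H264

open Pool.Agent.H979.FR

theorem fr_kap_aux {V : Type} (G : SimpleGraph V) [G.LocallyFinite] (m τ : ℕ) (A : Finset V) :
    ∑ x ∈ A, ∑ y ∈ A, kap G m τ x y =
      (∑ j ∈ range m, ∑ x ∈ A, ∑ y ∈ A, pn G (j * τ) x y) / m := by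
  rw [Finset.sum_comm (s := range m), Finset.sum_div]
  refine Finset.sum_congr rfl fun x _ => ?_
  rw [Finset.sum_comm (s := range m), Finset.sum_div]
  exact Finset.sum_congr rfl fun y _ => rfl

theorem fr_kap_zero {V : Type} (G : SimpleGraph V) [G.LocallyFinite] (A : Finset V) :
    ∑ x ∈ A, ∑ y ∈ A, pn G 0 x y = (A.card : ℝ) := by
  classical
  have h1 : ∀ x ∈ A, ∑ y ∈ A, pn G 0 x y = 1 := by
    intro x hx
    have h2 : ∀ y ∈ A, pn G 0 x y = if x = y then 1 else 0 := by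
      intro y _
      unfold pn
      split_ifs <;> rfl
    rw [Finset.sum_congr rfl h2, Finset.sum_ite_eq, if_pos hx]
  rw [Finset.sum_congr rfl h1, Finset.sum_const, nsmul_eq_mul, mul_one]

theorem fr_kap (hMON : S_MON) (hBD : S_BD2) : S_KAP := by
  intro V G _ d hd hreg A hA m τ hm hτ hτ2
  obtain ⟨s, hs⟩ : ∃ s : ℕ → ℝ, s = fun j => ∑ x ∈ A, ∑ y ∈ A, pn G (j * τ) x y := ⟨_, rfl⟩
  obtain ⟨p, hp⟩ : ∃ p : ℝ, p = ∑ x ∈ A, ∑ y ∈ A, pn G 2 x y := ⟨_, rfl⟩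
  have hbd := hBD V G d hd hreg A hA
  rw [← hp] at hbd
  have hs0 : s 0 = (A.card : ℝ) := by
    rw [hs]
    change ∑ x ∈ A, ∑ y ∈ A, pn G (0 * τ) x y = _
    rw [zero_mul]
    exact fr_kap_zero G A
  have hsj : ∀ j, s (j + 1) ≤ p := by
    intro j
    obtain ⟨n, hn⟩ := hτ
    have h1 : (j + 1) * τ = 2 * ((j + 1) * n) := by rw [hn]; ring
    have h2 : 1 ≤ (j + 1) * n := Nat.mul_pos (Nat.succ_pos j) (by omega)
    have h3 := hMON V G d hd hreg A ((j + 1) * n) h2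
    rw [hs, hp]
    change ∑ x ∈ A, ∑ y ∈ A, pn G ((j + 1) * τ) x y ≤ _
    rw [h1]
    exact h3
  have hsum : ∑ j ∈ range m, s j ≤ (A.card : ℝ) + ((m : ℝ) - 1) * p := by
    obtain ⟨k, rfl⟩ : ∃ k, m = k + 1 := ⟨m - 1, by omega⟩
    rw [Finset.sum_range_succ', hs0]
    have h1 : ∑ j ∈ range k, s (j + 1) ≤ ∑ _j ∈ range k, p :=
      Finset.sum_le_sum fun j _ => hsj j
    rw [Finset.sum_const, Finset.card_range, nsmul_eq_mul] at h1
    push_cast
    linarith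
  have hk : ∑ x ∈ A, ∑ y ∈ A, kap G m τ x y = (∑ j ∈ range m, s j) / m := by
    rw [fr_kap_aux, hs]
  rw [hk]
  have hm0 : (0 : ℝ) < m := by
    have : 0 < m := by omega
    exact_mod_cast this
  have hm2 : (2 : ℝ) ≤ m := by exact_mod_cast hm
  have hd0 : (0 : ℝ) < d := by exact_mod_cast hd
  have h4 : (0 : ℝ) ≤ ((outerBd G A).ncard : ℝ) / (d : ℝ) ^ 2 := by positivity
  have h5 : (∑ j ∈ range m, s j) / m ≤ ((A.card : ℝ) + ((m : ℝ) - 1) * p) / m :=
    div_le_div_of_nonneg_right hsum hm0.le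
  have h6 : (A.card : ℝ) - ((A.card : ℝ) + ((m : ℝ) - 1) * p) / m =
      (1 - 1 / m) * ((A.card : ℝ) - p) := by
    field_simp
    ring
  have h7 : (1 : ℝ) / m ≤ 1 / 2 := one_div_le_one_div_of_le (by norm_num) hm2
  have h8 : (1 / 2 : ℝ) * ((A.card : ℝ) - p) ≤ (1 - 1 / m) * ((A.card : ℝ) - p) :=
    mul_le_mul_of_nonneg_right (by linarith) (h4.trans hbd)
  have h9 : ((outerBd G A).ncard : ℝ) / (2 * (d : ℝ) ^ 2) =
      (1 / 2) * (((outerBd G A).ncard : ℝ) / (d : ℝ) ^ 2) := by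
    field_simp
  rw [h9]
  linarith

theorem fr_kdec (hDEC : S_DEC) : S_KDEC := by
  intro V _ G _ hc ht N hN
  have hN0 : (0 : ℝ) < N := by exact_mod_cast hN
  obtain ⟨n0, hn0⟩ := hDEC V G hc ht (1 / (4 * N)) (by positivity)
  refine ⟨max 2 (2 * n0), fun τ hτ hτe m hm x y => ?_⟩
  have hτ2 : 2 ≤ τ := (le_max_left _ _).trans hτ
  have hτn : 2 * n0 ≤ τ := (le_max_right _ _).trans hτ
  have hj : ∀ j : ℕ, pn G ((j + 1) * τ) x y ≤ 1 / (4 * N) := by
    intro j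
    obtain ⟨n, hn⟩ := hτe
    have h1 : (j + 1) * τ = 2 * ((j + 1) * n) := by rw [hn]; ring
    have h2 : n ≤ (j + 1) * n := Nat.le_mul_of_pos_left n (Nat.succ_pos j)
    rw [h1]
    exact hn0 _ (by omega) x y
  have h0 : pn G 0 x y ≤ 1 := by
    unfold pn
    split_ifs <;> norm_num
  have hmN : (4 * (N : ℝ)) ≤ m := by exact_mod_cast hm
  have hm0 : (0 : ℝ) < m := by linarith
  have hsum : ∑ j ∈ range m, pn G (j * τ) x y ≤ 1 + (m : ℝ) * (1 / (4 * N)) := by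
    obtain ⟨k, rfl⟩ : ∃ k, m = k + 1 := ⟨m - 1, by omega⟩
    rw [Finset.sum_range_succ', zero_mul]
    have h1 : ∑ j ∈ range k, pn G ((j + 1) * τ) x y ≤ ∑ _j ∈ range k, (1 / (4 * (N : ℝ))) :=
      Finset.sum_le_sum fun j _ => hj j
    rw [Finset.sum_const, Finset.card_range, nsmul_eq_mul] at h1
    have h2 : (0 : ℝ) ≤ 1 / (4 * N) := by positivity
    push_cast
    linarith
  have h5 : kap G m τ x y ≤ (1 + (m : ℝ) * (1 / (4 * N))) / m :=
    div_le_div_of_nonneg_right hsum hm0.le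
  have h6 : (1 + (m : ℝ) * (1 / (4 * N))) / m = 1 / m + 1 / (4 * N) := by
    field_simp
  have h7 : (1 : ℝ) / m ≤ 1 / (4 * N) := one_div_le_one_div_of_le (by positivity) hmN
  have h8 : (1 : ℝ) / (2 * N) = 1 / (4 * N) + 1 / (4 * N) := by
    field_simp
    norm_num
  rw [h8]
  linarith

end Pool.Agent.H264
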