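import Pool.Agent.H465.OC.StmB
import Pool.Graph.R_pool_sql_team_seeded_3997aac3.Q279.SC.J.COUNT

/-!
# Project OC, task B9: the number of points modulo `p` and the Hasse polynomial
-/

set_option autoImplicit false

namespace Pool.Agent.H264.OCCountEq

open Finset Pool.Agent.Q279.SC Pool.Agent.Q279.SC.JCOUNT Pool.Agent.H465.OC

theorem main : CountEq := by
  intro p _ hp W hD
  have hpp : p.Prime := Fact.out
  obtain ⟨V, hV⟩ : ∃ V, V = W.map (Int.castRingHom (ZMod p)) := ⟨_, rfl⟩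
  have hVD : V.Δ ≠ 0 := by
    rw [hV, WeierstrassCurve.map_Δ]
    intro h0
    exact hD ((ZMod.intCast_zmod_eq_zero_iff_dvd _ _).1 h0)
  obtain ⟨A, h0⟩ : ∃ A : ZMod p, ((ap W p : ℤ) : ZMod p) = A := ⟨_, rfl⟩
  rw [h0]
  unfold ap at h0
  rw [← hV, card_pt V hVD] at h0
  push_cast at h0
  rw [ZMod.natCast_self] at h0
  -- the number of affine points
  have hcard : ((Nat.card {xy : ZMod p × ZMod p // xy.2 ^ 2 + V.a₁ * xy.1 * xy.2 +
      V.a₃ * xy.2 = xy.1 ^ 3 + V.a₂ * xy.1 ^ 2 + V.a₄ * xy.1 + V.a₆} : ℕ) : ZMod p) =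
      ∑ x : ZMod p, (4 * x ^ 3 + V.b₂ * x ^ 2 + 2 * V.b₄ * x + V.b₆) ^ (p / 2) := by
    have e : {xy : ZMod p × ZMod p // xy.2 ^ 2 + V.a₁ * xy.1 * xy.2 +
        V.a₃ * xy.2 = xy.1 ^ 3 + V.a₂ * xy.1 ^ 2 + V.a₄ * xy.1 + V.a₆} ≃
        Σ x : ZMod p, {y : ZMod p // y ^ 2 + (V.a₁ * x + V.a₃) * y =
          x ^ 3 + V.a₂ * x ^ 2 + V.a₄ * x + V.a₆} :=
      { toFun := fun P => ⟨P.1.1, P.1.2, by
          have := P.2
          linear_combination this⟩
        invFun := fun P => ⟨(P.1, P.2.1), by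
          have := P.2.2
          simp only
          linear_combination this⟩
        left_inv := fun P => rfl
        right_inv := fun P => rfl }
    rw [Nat.card_congr e, Nat.card_sigma]
    push_cast
    rw [Finset.sum_congr rfl fun x _ => card_y hp (V.a₁ * x + V.a₃) _, Finset.sum_add_distrib]
    simp only [Finset.sum_const, Finset.card_univ, ZMod.card, nsmul_eq_mul, mul_one,
      CharP.cast_eq_zero, zero_add]
    refine Finset.sum_congr rfl fun x _ => ?_
    congr 1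
    unfold WeierstrassCurve.b₂ WeierstrassCurve.b₄ WeierstrassCurve.b₆
    ring
  rw [hcard] at h0
  -- the cubic
  have h36 : (36 : ZMod p) ≠ 0 := by
    intro h
    have h1 : ((36 : ℕ) : ZMod p) = 0 := by exact_mod_cast h
    rw [ZMod.natCast_eq_zero_iff] at h1
    have h2 : 36 = 2 * (2 * (3 * 3)) := by norm_num
    rw [h2] at h1
    rcases hpp.dvd_mul.1 h1 with h | h
    · have := Nat.le_of_dvd (by norm_num) h; omega
    rcases hpp.dvd_mul.1 h with h | h
    · have := Nat.le_of_dvd (by norm_num) h; omega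
    rcases hpp.dvd_mul.1 h with h | h
    · have := Nat.le_of_dvd (by norm_num) h; omega
    · have := Nat.le_of_dvd (by norm_num) h; omega
  have h3 : (3 : ZMod p) ≠ 0 := by
    intro h
    apply h36
    have : (36 : ZMod p) = 12 * 3 := by norm_num
    rw [this, h, mul_zero]
  have h108 : (108 : ZMod p) ≠ 0 := by
    have : (108 : ZMod p) = 36 * 3 := by norm_num
    rw [this]
    exact mul_ne_zero h36 h3
  have hodd : 2 * (p / 2) = p - 1 := by
    have := hpp.odd_of_ne_two (by omega)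
    obtain ⟨m, hm⟩ := this
    omega
  obtain ⟨g, hg⟩ : ∃ g : Polynomial (ZMod p), g = Polynomial.X ^ 3 -
      Polynomial.C (27 * V.c₄) * Polynomial.X - Polynomial.C (54 * V.c₆) := ⟨_, rfl⟩
  have hge : ∀ x, g.eval x = x ^ 3 - 27 * V.c₄ * x - 54 * V.c₆ := by
    intro x
    rw [hg]
    simp
  have hterm : ∀ x : ZMod p, (4 * x ^ 3 + V.b₂ * x ^ 2 + 2 * V.b₄ * x + V.b₆) ^ (p / 2) =
      (g ^ (p / 2)).eval (36 * x + 3 * V.b₂) := by
    intro x
    have e1 : 108 ^ 2 * (4 * x ^ 3 + V.b₂ * x ^ 2 + 2 * V.b₄ * x + V.b₆) =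
        g.eval (36 * x + 3 * V.b₂) := by
      rw [hge]
      unfold WeierstrassCurve.c₄ WeierstrassCurve.c₆
      ring
    rw [Polynomial.eval_pow, ← e1, mul_pow, ← pow_mul, hodd, ZMod.pow_card_sub_one_eq_one h108,
      one_mul]
  rw [Finset.sum_congr rfl fun x _ => hterm x] at h0
  have hbij : ∑ x : ZMod p, (g ^ (p / 2)).eval (36 * x + 3 * V.b₂) =
      ∑ x : ZMod p, (g ^ (p / 2)).eval x := by
    have e : Function.Bijective (fun x : ZMod p => 36 * x + 3 * V.b₂) := by
      rw [Fintype.bijective_iff_injective_and_card]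
      refine ⟨fun x y hxy => ?_, rfl⟩
      simp only [add_left_inj] at hxy
      exact mul_left_cancel₀ h36 hxy
    exact Function.Bijective.sum_comp e (fun x => (g ^ (p / 2)).eval x)
  have hdeg : (g ^ (p / 2)).natDegree < 2 * (p - 1) := by
    have h1 : g.natDegree ≤ 3 := by
      rw [hg]
      compute_degree!
    have h2 := Polynomial.natDegree_pow_le_of_le (p / 2) h1
    omega
  rw [hbij, poly_sum _ hdeg] at h0
  -- the Hasse polynomial
  have hc4 : ((W.c₄ : ℤ) : ZMod p) = V.c₄ := by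
    rw [hV, WeierstrassCurve.map_c₄]; rfl
  have hc6 : ((W.c₆ : ℤ) : ZMod p) = V.c₆ := by
    rw [hV, WeierstrassCurve.map_c₆]; rfl
  rw [hc4, hc6]
  have hhs : at2 V.c₄ V.c₆ (hs p) = (g ^ (p / 2)).coeff (p - 1) := by
    unfold at2 hs
    have e1 : (p - 1) / 2 = p / 2 := by omega
    rw [e1]
    have e2 := Polynomial.coeff_map (MvPolynomial.eval ![V.c₄, V.c₆]) (p := cub (ZMod p) ^ (p / 2))
      (p - 1)
    rw [← e2, Polynomial.map_pow]
    congr 2
    unfold cub
    rw [hg]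
    simp
  rw [hhs]
  linear_combination -h0

end Pool.Agent.H264.OCCountEq
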