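import Pool.Agent.H558.PP.TStm

set_option autoImplicit false

/-!
# T5: for almost all `t` a positive proportion of the sections is good (helper264 for helper558)
-/

namespace Pool.Agent.H264.PPT5

open PowerSeries Finset Pool.Agent.R836.PP Pool.Agent.H558.KK Pool.Agent.H558.PP
open Pool.Agent.K7.H72.MT hiding W few dis DD dis_stable dis_vary DD_stable DD_sum DD_block few_bad
  dis_le DD_le base count

open scoped Classical in
theorem card_mod {m k : ℕ} (hmk : m ≤ k) (p : ℕ → Prop) :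
    #{b ∈ range (2 ^ k) | p (b % 2 ^ m)} = 2 ^ (k - m) * #{b ∈ range (2 ^ m) | p b} := by
  obtain ⟨j, rfl⟩ := Nat.exists_eq_add_of_le hmk
  rw [Nat.add_sub_cancel_left, card_filter, card_filter, sum_pow_add, mul_sum]
  refine sum_congr rfl fun a ha => ?_
  rw [mem_range] at ha
  have h1 : ∀ b ∈ range (2 ^ j), (if p ((a + 2 ^ m * b) % 2 ^ m) then 1 else 0) =
      if p a then 1 else 0 := by
    intro b _
    rw [Nat.add_mul_mod_self_left, Nat.mod_eq_of_lt ha]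
  rw [sum_congr rfl h1, sum_const, card_range, smul_eq_mul]

open scoped Classical in
/-- Markov's inequality for sums -/
theorem markov (s : Finset ℕ) (f : ℕ → ℝ) (hf : ∀ t ∈ s, 0 ≤ f t) (c : ℝ) :
    (#{t ∈ s | c < f t} : ℝ) * c ≤ ∑ t ∈ s, f t := by
  calc (#{t ∈ s | c < f t} : ℝ) * c = ∑ t ∈ s with c < f t, c := by
        rw [sum_const, nsmul_eq_mul]
    _ ≤ ∑ t ∈ s with c < f t, f t := by
        refine sum_le_sum fun t ht => ?_
        rw [mem_filter] at ht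
        exact ht.2.le
    _ ≤ ∑ t ∈ s, f t := sum_le_sum_of_subset_of_nonneg (filter_subset _ _) fun t ht _ => hf t ht

theorem mom_all {V0 T m : ℕ} (h : V0 + 16 * 8 ^ m ≤ T) : Mom V0 T m (m + 1) := by
  rcases Nat.eq_zero_or_pos m with h0 | h0
  · subst h0
    have h1 : Mom V0 T 0 1 := (mom_zero T).start (by norm_num) (by omega)
    simpa using h1
  · apply block_mom' h0
    have e8 : 8 ^ m = (2 ^ m) ^ 3 := by
      rw [← pow_mul, mul_comm m 3, pow_mul]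
      norm_num
    rw [e8] at h
    have hq : 1 ≤ 2 ^ m := Nat.one_le_two_pow
    generalize 2 ^ m = q at h hq
    have h2 : q * (V0 + 16 * q ^ 3) ≤ q * T := Nat.mul_le_mul_left _ h
    have h3 : V0 ≤ q * V0 := Nat.le_mul_of_pos_left _ hq
    have h4 : q * (V0 + 16 * q ^ 3) = q * V0 + 16 * q ^ 4 := by ring
    have h5 : 0 ≤ q ^ 4 := Nat.zero_le _
    omega

open scoped Classical in
/-- few `t` with few good sections at level `m` -/
theorem few_low {V0 T m : ℕ} (h : V0 + 16 * 8 ^ m ≤ T) (U : S) (hU : Gv V0 U) {la : ℝ}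
    (hla : 0 < la) : (#{t ∈ range (2 ^ m) | (nv T m t U : ℝ) < la * 2 ^ m} : ℝ) ≤
      la * 2 ^ m * (m + 1) := by
  have hM := mom_all h [(U, fun _ => 0, fun _ => True)]
  have hg : gv V0 [((U, fun _ => 0, fun _ => True) : El)] = 1 := by
    simp [gv, hU]
  have hd : ∀ t, gv T (desc P2 m [((U, fun _ => 0, fun _ => True) : El)] t) = nv T m t U := by
    intro t
    rw [gv_desc]
    simp
  rw [hg] at hM
  obtain ⟨h1, h2⟩ := hM Nat.one_pos
  simp only [hd] at h1 h2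
  rw [Nat.cast_one, div_one] at h2
  have hB : (0 : ℝ) < la * 2 ^ m := by positivity
  have h6 : (#{t ∈ range (2 ^ m) | (nv T m t U : ℝ) < la * 2 ^ m} : ℝ) * (la * 2 ^ m)⁻¹ ≤ m + 1 := by
    calc _ = ∑ t ∈ range (2 ^ m) with (nv T m t U : ℝ) < la * 2 ^ m, (la * 2 ^ m)⁻¹ := by
          rw [sum_const, nsmul_eq_mul]
      _ ≤ ∑ t ∈ range (2 ^ m) with (nv T m t U : ℝ) < la * 2 ^ m, ((nv T m t U : ℝ))⁻¹ := by
          refine sum_le_sum fun t ht => ?_
          rw [mem_filter] at ht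
          have h7 : (0 : ℝ) < nv T m t U := by exact_mod_cast h1 t
          exact inv_anti₀ h7 ht.2.le
      _ ≤ ∑ t ∈ range (2 ^ m), ((nv T m t U : ℝ))⁻¹ := by
          refine sum_le_sum_of_subset_of_nonneg (filter_subset _ _) fun t _ _ => ?_
          positivity
      _ ≤ _ := h2
  rw [mul_inv_le_iff₀ hB] at h6
  linarith

open scoped Classical in
/-- the dead sections over the points of the row `t` -/
noncomputable def Zd (k V m T : ℕ) (U : S) (t : ℕ) : ℕ :=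
  #{b ∈ range (2 ^ k) | ¬ Gv V (node P2 k b t U) ∧ Gv T (node P2 m (b % 2 ^ m) (t % 2 ^ m) U)}

theorem sum_Zd (k V m T : ℕ) (U : S) : ∑ t ∈ range (2 ^ k), Zd k V m T U t = XX k V m T U := by
  classical
  unfold XX Zd
  rw [card_filter, sum_product]
  refine sum_congr rfl fun t _ => ?_
  rw [card_filter]

open scoped Classical in
theorem low_bound {k V m T : ℕ} (hmk : m ≤ k) (U : S) (t : ℕ) :
    2 ^ (k - m) * nv T m (t % 2 ^ m) U ≤
      #{b ∈ range (2 ^ k) | Gv V (node P2 k b t U)} + Zd k V m T U t := by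
  have h1 : 2 ^ (k - m) * nv T m (t % 2 ^ m) U =
      #{b ∈ range (2 ^ k) | Gv T (node P2 m (b % 2 ^ m) (t % 2 ^ m) U)} := by
    rw [card_mod hmk (fun b => Gv T (node P2 m b (t % 2 ^ m) U))]
    rfl
  rw [h1]
  unfold Zd
  refine le_trans (card_le_card ?_) (card_union_le _ _)
  intro b hb
  rw [mem_filter] at hb
  rw [mem_union, mem_filter, mem_filter]
  by_cases h2 : Gv V (node P2 k b t U)
  · exact Or.inl ⟨hb.1, h2⟩
  · exact Or.inr ⟨hb.1, h2, hb.2⟩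

theorem exists_m0 (ε : ℝ) (hε : 0 < ε) (L0 : ℕ) :
    ∃ m0 : ℕ, L0 ≤ m0 ∧ 2 ≤ m0 ∧ 16 * (m0 : ℝ) ≤ ε ^ 2 * ((m0 : ℝ) - 1) ^ 2 := by
  obtain ⟨n, hn⟩ := exists_nat_gt (64 / ε ^ 2)
  have hε2 : 0 < ε ^ 2 := by positivity
  refine ⟨max (max L0 2) n, ?_, ?_, ?_⟩
  · exact (le_max_left _ _).trans (le_max_left _ _)
  · exact (le_max_right _ _).trans (le_max_left _ _)
  · have h1 : (n : ℝ) ≤ ((max (max L0 2) n : ℕ) : ℝ) := by exact_mod_cast le_max_right _ _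
    have h2 : (2 : ℝ) ≤ ((max (max L0 2) n : ℕ) : ℝ) := by
      exact_mod_cast (le_max_right _ _).trans (le_max_left _ _)
    generalize ((max (max L0 2) n : ℕ) : ℝ) = x at h1 h2
    rw [div_lt_iff₀ hε2] at hn
    have h3 : 64 ≤ x * ε ^ 2 := hn.le.trans (mul_le_mul_of_nonneg_right h1 hε2.le)
    have h4 : x ^ 2 / 4 ≤ (x - 1) ^ 2 := by nlinarith
    have h5 : ε ^ 2 * (x ^ 2 / 4) ≤ ε ^ 2 * (x - 1) ^ 2 := mul_le_mul_of_nonneg_left h4 hε2.le
    have h6 : 16 * x ≤ ε ^ 2 * (x ^ 2 / 4) := by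
      have h7 : 64 * x ≤ x * ε ^ 2 * x := mul_le_mul_of_nonneg_right h3 (by linarith)
      nlinarith
    linarith

theorem t5 (h3 : S_T3) (h4 : S_T4) (_hN1 : S_N1) : S_T5 := by
  classical
  intro ε hε
  obtain ⟨L0, hL0, hStp⟩ := h3
  obtain ⟨m0, hm0, hm2, hm⟩ := exists_m0 ε hε L0
  have hm2' : (2 : ℝ) ≤ m0 := by exact_mod_cast hm2
  refine ⟨ε / (4 * m0), 8 * 8 ^ m0, by positivity, ?_⟩
  intro V0
  refine ⟨(V0 - m0) * V0, ?_⟩
  intro U hU k hk
  obtain ⟨m, T, hmm0, hmk, hT, hXX⟩ := h4 L0 hL0 hStp m0 hm0 V0 V0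
    (Nat.lt_pow_self (by norm_num)).le k hk
  have hla : (0 : ℝ) < ε / (2 * m0) := by positivity
  -- first exceptional set
  have hA : (#{t ∈ range (2 ^ k) | (nv T m (t % 2 ^ m) U : ℝ) < ε / (2 * m0) * 2 ^ m} : ℝ) ≤
      ε / 2 * 2 ^ k := by
    rw [card_mod hmk (fun t => (nv T m t U : ℝ) < ε / (2 * m0) * 2 ^ m)]
    push_cast
    have h5 := few_low hT U hU hla
    have h6 : (m : ℝ) + 1 ≤ m0 := by exact_mod_cast hmm0
    have h7 : (2 : ℝ) ^ k = 2 ^ (k - m) * 2 ^ m := by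
      rw [← pow_add, Nat.sub_add_cancel hmk]
    calc (2 : ℝ) ^ (k - m) * _ ≤ 2 ^ (k - m) * (ε / (2 * m0) * 2 ^ m * (m + 1)) := by gcongr
      _ ≤ 2 ^ (k - m) * (ε / (2 * m0) * 2 ^ m * m0) := by gcongr
      _ = ε / 2 * 2 ^ k := by
          rw [h7]
          field_simp
  -- second exceptional set
  have hB : (#{t ∈ range (2 ^ k) | ε / (4 * m0) * 2 ^ k < (Zd k (8 * 8 ^ m0) m T U t : ℝ)} : ℝ) ≤
      ε / 2 * 2 ^ k := by
    have h5 := markov (range (2 ^ k)) (fun t => (Zd k (8 * 8 ^ m0) m T U t : ℝ))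
      (fun t _ => Nat.cast_nonneg _) (ε / (4 * m0) * 2 ^ k)
    have h6 : ∑ t ∈ range (2 ^ k), (Zd k (8 * 8 ^ m0) m T U t : ℝ) =
        (XX k (8 * 8 ^ m0) m T U : ℝ) := by
      rw [← sum_Zd]
      push_cast
      rfl
    rw [h6] at h5
    have h7 := hXX U
    have h8 : 2 / (((m0 : ℝ) - 1) ^ 2 * 2 ^ (Nat.log 2 m0) ^ 3) * 4 ^ k ≤
        2 / ((m0 : ℝ) - 1) ^ 2 * 4 ^ k := by
      have h9 : 0 < ((m0 : ℝ) - 1) ^ 2 := by
        have : 0 < (m0 : ℝ) - 1 := by linarith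
        positivity
      have h10 : (1 : ℝ) ≤ 2 ^ (Nat.log 2 m0) ^ 3 := one_le_pow₀ (by norm_num)
      have h11 : ((m0 : ℝ) - 1) ^ 2 ≤ ((m0 : ℝ) - 1) ^ 2 * 2 ^ (Nat.log 2 m0) ^ 3 :=
        le_mul_of_one_le_right h9.le h10
      gcongr
    have hm1 : 0 < (m0 : ℝ) - 1 := by linarith
    have h12 : 2 / ((m0 : ℝ) - 1) ^ 2 * 4 ^ k ≤ ε / 2 * 2 ^ k * (ε / (4 * m0) * 2 ^ k) := by
      have e4 : (4 : ℝ) ^ k = 2 ^ k * 2 ^ k := by
        rw [← mul_pow]; norm_num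
      rw [e4]
      have h13 : 2 / ((m0 : ℝ) - 1) ^ 2 ≤ ε / 2 * (ε / (4 * m0)) := by
        have e5 : ε / 2 * (ε / (4 * m0)) = ε ^ 2 / (8 * m0) := by
          field_simp
          ring
        rw [e5, div_le_div_iff₀ (by positivity) (by positivity)]
        linarith
      calc 2 / ((m0 : ℝ) - 1) ^ 2 * (2 ^ k * 2 ^ k) ≤ ε / 2 * (ε / (4 * m0)) * (2 ^ k * 2 ^ k) :=
            mul_le_mul_of_nonneg_right h13 (by positivity)
        _ = _ := by ring
    have h14 : (0 : ℝ) < ε / (4 * m0) * 2 ^ k := by positivity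
    exact le_of_mul_le_mul_right (by linarith) h14
  -- conclusion
  have hsub : (Finset.filter (fun t => (#{b ∈ range (2 ^ k) | Gv (8 * 8 ^ m0) (node P2 k b t U)} : ℝ) <
      ε / (4 * m0) * 2 ^ k) (range (2 ^ k))) ⊆
      (Finset.filter (fun t => (nv T m (t % 2 ^ m) U : ℝ) < ε / (2 * m0) * 2 ^ m) (range (2 ^ k))) ∪
      (Finset.filter (fun t => ε / (4 * m0) * 2 ^ k < (Zd k (8 * 8 ^ m0) m T U t : ℝ))
        (range (2 ^ k))) := by
    intro t ht
    rw [mem_filter] at ht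
    rw [mem_union, mem_filter, mem_filter]
    by_contra hcon
    push Not at hcon
    obtain ⟨hc1, hc2⟩ := hcon
    have h5 := hc1 ht.1
    have h6 := hc2 ht.1
    have h7 := low_bound (V := 8 * 8 ^ m0) (T := T) hmk U t
    have h8 : (2 : ℝ) ^ (k - m) * nv T m (t % 2 ^ m) U ≤
        (#{b ∈ range (2 ^ k) | Gv (8 * 8 ^ m0) (node P2 k b t U)} : ℝ) +
          (Zd k (8 * 8 ^ m0) m T U t : ℝ) := by exact_mod_cast h7
    have h9 : (2 : ℝ) ^ (k - m) * (ε / (2 * m0) * 2 ^ m) ≤ 2 ^ (k - m) * nv T m (t % 2 ^ m) U := by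
      gcongr
    have h10 : (2 : ℝ) ^ (k - m) * (ε / (2 * m0) * 2 ^ m) = ε / (4 * m0) * 2 ^ k + ε / (4 * m0) * 2 ^ k := by
      have h7 : (2 : ℝ) ^ k = 2 ^ (k - m) * 2 ^ m := by
        rw [← pow_add, Nat.sub_add_cancel hmk]
      rw [h7]
      field_simp
      ring
    have h11 := ht.2
    linarith
  have hcard := (card_le_card hsub).trans (card_union_le _ _)
  have hcard' : (#{t ∈ range (2 ^ k) | (#{b ∈ range (2 ^ k) | Gv (8 * 8 ^ m0) (node P2 k b t U)} : ℝ) <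
      ε / (4 * m0) * 2 ^ k} : ℝ) ≤
      (#{t ∈ range (2 ^ k) | (nv T m (t % 2 ^ m) U : ℝ) < ε / (2 * m0) * 2 ^ m} : ℝ) +
      (#{t ∈ range (2 ^ k) | ε / (4 * m0) * 2 ^ k < (Zd k (8 * 8 ^ m0) m T U t : ℝ)} : ℝ) := by
    exact_mod_cast hcard
  have hfin := hcard'.trans (show _ ≤ ε * 2 ^ k by linarith)
  exact hfin

end Pool.Agent.H264.PPT5
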