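import Pool.Agent.H812.SF.Stm2

/-!
# The Bessel function of order one has arbitrarily large zeros
-/

set_option autoImplicit false

namespace Pool.Agent.H264.SfJ1Z

open Pool.Agent.N229.SC Pool.Agent.H812.SF Filter Topology Set

/-- the bound for the derivatives -/
noncomputable def bd (A : ℝ) (k : ℕ) : ℝ := 2 * (max 1 (A / 2)) ^ 2 * (((max 1 (A / 2)) ^ 2) ^ k / k.factorial)

theorem bd_summable (A : ℝ) : Summable (bd A) :=
  (Real.summable_pow_div_factorial _).mul_left _

theorem abs_pow_le {A ρ : ℝ} (hρ : |ρ| < A) {i k : ℕ} (hi : i ≤ 2 * k + 2) :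
    |ρ / 2| ^ i ≤ (max 1 (A / 2)) ^ 2 * ((max 1 (A / 2)) ^ 2) ^ k := by
  have h1 : |ρ / 2| ≤ max 1 (A / 2) := by
    refine le_trans ?_ (le_max_right _ _)
    rw [abs_div, abs_of_pos (by norm_num : (0:ℝ) < 2)]
    linarith
  have h2 : (1 : ℝ) ≤ max 1 (A / 2) := le_max_left _ _
  calc |ρ / 2| ^ i ≤ (max 1 (A / 2)) ^ i := pow_le_pow_left₀ (abs_nonneg _) h1 i
    _ ≤ (max 1 (A / 2)) ^ (2 * k + 2) := pow_le_pow_right₀ h2 hi
    _ = (max 1 (A / 2)) ^ 2 * ((max 1 (A / 2)) ^ 2) ^ k := by
        rw [← pow_mul, ← pow_add]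
        congr 1
        omega

/-- terms of the series of order zero -/
noncomputable def g (k : ℕ) (ρ : ℝ) : ℝ := (-1) ^ k * (ρ / 2) ^ (2 * k + 0) / (k.factorial * (k + 0).factorial)

/-- their derivatives -/
noncomputable def g' (k : ℕ) (ρ : ℝ) : ℝ := (-1) ^ k * (k * (ρ / 2) ^ (2 * k - 1)) / (k.factorial * k.factorial)

theorem g_deriv (k : ℕ) (ρ : ℝ) : HasDerivAt (g k) (g' k ρ) ρ := by
  have h1 : HasDerivAt (fun x : ℝ => x / 2) (1 / 2) ρ := (hasDerivAt_id ρ).div_const 2
  have h2 := ((h1.pow (2 * k)).const_mul ((-1 : ℝ) ^ k)).div_const ((k.factorial : ℝ) * k.factorial)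
  refine h2.congr_deriv ?_
  unfold g'
  push_cast
  ring

theorem g'_le {A ρ : ℝ} (hρ : |ρ| < A) (k : ℕ) : ‖g' k ρ‖ ≤ bd A k := by
  unfold g' bd
  rw [Real.norm_eq_abs, abs_div, abs_mul, abs_mul, abs_pow, abs_neg, abs_one, one_pow, one_mul,
    abs_pow, Nat.abs_cast, abs_of_pos (by positivity : (0:ℝ) < k.factorial * k.factorial)]
  have h1 := abs_pow_le hρ (i := 2 * k - 1) (k := k) (by omega)
  have hk : (k : ℝ) ≤ k.factorial := by exact_mod_cast Nat.self_le_factorial k
  have hf : (0 : ℝ) < k.factorial := by positivity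
  have hM : 0 ≤ (max 1 (A / 2)) ^ 2 * ((max 1 (A / 2)) ^ 2) ^ k := by positivity
  calc (k : ℝ) * |ρ / 2| ^ (2 * k - 1) / (k.factorial * k.factorial)
      ≤ (k.factorial * ((max 1 (A / 2)) ^ 2 * ((max 1 (A / 2)) ^ 2) ^ k)) /
          (k.factorial * k.factorial) := by
        apply div_le_div_of_nonneg_right _ (by positivity)
        exact mul_le_mul hk h1 (by positivity) hf.le
    _ = ((max 1 (A / 2)) ^ 2 * ((max 1 (A / 2)) ^ 2) ^ k) / k.factorial := by
        field_simp
    _ ≤ 2 * (((max 1 (A / 2)) ^ 2 * ((max 1 (A / 2)) ^ 2) ^ k) / k.factorial) := by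
        have : 0 ≤ ((max 1 (A / 2)) ^ 2 * ((max 1 (A / 2)) ^ 2) ^ k) / k.factorial := by positivity
        linarith
    _ = _ := by ring

theorem g_zero_summable : Summable fun k => g k 0 := by
  apply summable_of_ne_finset_zero (s := {0})
  intro k hk
  rw [Finset.mem_singleton] at hk
  unfold g
  rw [zero_div, zero_pow (by omega), mul_zero, zero_div]

/-- terms of `ρ J_1 ρ` -/
noncomputable def h (k : ℕ) (ρ : ℝ) : ℝ :=
  ρ * ((-1) ^ k * (ρ / 2) ^ (2 * k + 1) / (k.factorial * (k + 1).factorial))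

theorem h_deriv (k : ℕ) (ρ : ℝ) : HasDerivAt (h k) (ρ * g k ρ) ρ := by
  have h1 : HasDerivAt (fun x : ℝ => x / 2) (1 / 2) ρ := (hasDerivAt_id ρ).div_const 2
  have h2 := ((h1.pow (2 * k + 1)).const_mul ((-1 : ℝ) ^ k)).div_const
    ((k.factorial : ℝ) * (k + 1).factorial)
  have h3 : HasDerivAt (h k) (1 * ((-1) ^ k * (ρ / 2) ^ (2 * k + 1) /
      ((k.factorial : ℝ) * (k + 1).factorial)) + ρ * ((-1) ^ k * (((2 * k + 1 : ℕ) : ℝ) *
      (ρ / 2) ^ (2 * k + 1 - 1) * (1 / 2)) / ((k.factorial : ℝ) * (k + 1).factorial))) ρ :=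
    (hasDerivAt_id ρ).mul h2
  refine h3.congr_deriv ?_
  unfold g
  have e : ((k + 1).factorial : ℝ) = (k + 1) * k.factorial := by
    rw [Nat.factorial_succ]
    push_cast
    ring
  have hf : (k.factorial : ℝ) ≠ 0 := by positivity
  have hk : (k : ℝ) + 1 ≠ 0 := by positivity
  rw [add_zero, add_zero, e]
  simp only [Nat.add_sub_cancel, pow_succ]
  push_cast
  field_simp
  ring

theorem h_le {A ρ : ℝ} (hρ : |ρ| < A) (k : ℕ) : ‖ρ * g k ρ‖ ≤ bd A k := by
  unfold g bd
  have e : ρ * ((-1) ^ k * (ρ / 2) ^ (2 * k + 0) / (k.factorial * (k + 0).factorial)) =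
      2 * ((-1) ^ k * (ρ / 2) ^ (2 * k + 1) / (k.factorial * k.factorial)) := by
    rw [add_zero, add_zero, pow_succ]
    ring
  rw [e, Real.norm_eq_abs, abs_mul, abs_div, abs_mul, abs_pow, abs_neg, abs_one, one_pow, one_mul,
    abs_pow, abs_of_pos (by positivity : (0:ℝ) < k.factorial * k.factorial),
    abs_of_pos (by norm_num : (0:ℝ) < 2)]
  have h1 := abs_pow_le hρ (i := 2 * k + 1) (k := k) (by omega)
  have hk : (1 : ℝ) ≤ k.factorial := by exact_mod_cast Nat.factorial_pos k
  have hf : (0 : ℝ) < k.factorial := by positivity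
  have hM : 0 ≤ (max 1 (A / 2)) ^ 2 * ((max 1 (A / 2)) ^ 2) ^ k := by positivity
  have h2 : |ρ / 2| ^ (2 * k + 1) / (k.factorial * k.factorial) ≤
      ((max 1 (A / 2)) ^ 2 * ((max 1 (A / 2)) ^ 2) ^ k) / k.factorial := by
    rw [div_le_div_iff₀ (by positivity) hf]
    calc |ρ / 2| ^ (2 * k + 1) * k.factorial
        ≤ ((max 1 (A / 2)) ^ 2 * ((max 1 (A / 2)) ^ 2) ^ k) * k.factorial :=
          mul_le_mul_of_nonneg_right h1 hf.le
      _ ≤ ((max 1 (A / 2)) ^ 2 * ((max 1 (A / 2)) ^ 2) ^ k) * (k.factorial * k.factorial) := by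
          apply mul_le_mul_of_nonneg_left _ hM
          nlinarith
  calc 2 * (|ρ / 2| ^ (2 * k + 1) / (k.factorial * k.factorial))
      ≤ 2 * (((max 1 (A / 2)) ^ 2 * ((max 1 (A / 2)) ^ 2) ^ k) / k.factorial) := by linarith
    _ = _ := by ring

theorem h_zero_summable : Summable fun k => h k 0 := by
  have e : (fun k => h k 0) = fun _ => 0 := by
    funext k
    unfold h
    rw [zero_mul]
  rw [e]
  exact summable_zero

theorem J0_deriv (ρ : ℝ) : HasDerivAt (fun x => Fb x 0) (-Fb ρ 1) ρ := by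
  have hρ : |ρ| < |ρ| + 1 := by linarith
  have hmem : ∀ x, x ∈ Metric.ball (0:ℝ) (|ρ| + 1) ↔ |x| < |ρ| + 1 := by
    intro x
    rw [Metric.mem_ball, dist_zero_right, Real.norm_eq_abs]
  have h1 := hasDerivAt_tsum_of_isPreconnected (bd_summable (|ρ| + 1))
    (Metric.isOpen_ball : IsOpen (Metric.ball (0:ℝ) (|ρ| + 1))) (convex_ball _ _).isPreconnected
    (fun k y _ => g_deriv k y) (fun k y hy => g'_le ((hmem y).1 hy) k)
    (Metric.mem_ball_self (by positivity)) g_zero_summable ((hmem ρ).2 hρ)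
  have hs : Summable fun k => g' k ρ :=
    Summable.of_norm_bounded (bd_summable (|ρ| + 1)) fun k => g'_le hρ k
  have e : ∑' k, g' k ρ = -Fb ρ 1 := by
    rw [hs.tsum_eq_zero_add]
    have e0 : g' 0 ρ = 0 := by
      unfold g'
      simp
    rw [e0, zero_add, Fb, ← tsum_neg]
    refine tsum_congr fun k => ?_
    unfold g'
    have e1 : ((k + 1).factorial : ℝ) = (k + 1) * k.factorial := by
      rw [Nat.factorial_succ]
      push_cast
      ring
    have hf : (k.factorial : ℝ) ≠ 0 := by positivity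
    have hk : (k : ℝ) + 1 ≠ 0 := by positivity
    have e2 : 2 * (k + 1) - 1 = 2 * k + 1 := by omega
    rw [e1, e2]
    push_cast
    rw [pow_succ (-1 : ℝ) k]
    field_simp
  rw [e] at h1
  exact h1

theorem J1_deriv (ρ : ℝ) : HasDerivAt (fun x => x * Fb x 1) (ρ * Fb ρ 0) ρ := by
  have hρ : |ρ| < |ρ| + 1 := by linarith
  have hmem : ∀ x, x ∈ Metric.ball (0:ℝ) (|ρ| + 1) ↔ |x| < |ρ| + 1 := by
    intro x
    rw [Metric.mem_ball, dist_zero_right, Real.norm_eq_abs]
  have h1 := hasDerivAt_tsum_of_isPreconnected (bd_summable (|ρ| + 1))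
    (Metric.isOpen_ball : IsOpen (Metric.ball (0:ℝ) (|ρ| + 1))) (convex_ball _ _).isPreconnected
    (fun k y _ => h_deriv k y) (fun k y hy => h_le ((hmem y).1 hy) k)
    (Metric.mem_ball_self (by positivity)) h_zero_summable ((hmem ρ).2 hρ)
  have e : ∑' k, ρ * g k ρ = ρ * Fb ρ 0 := tsum_mul_left
  have e2 : (fun x => ∑' k, h k x) = fun x => x * Fb x 1 := by
    funext x
    exact tsum_mul_left
  rw [e, e2] at h1
  exact h1

/-- a positive solution does not exist -/
theorem no_pos {F G : ℝ → ℝ} (hF : ∀ x, HasDerivAt F (-G x) x)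
    (hG : ∀ x, HasDerivAt (fun y => y * G y) (x * F x) x) {R : ℝ} (hR : 1 ≤ R)
    (hpos : ∀ x, R ≤ x → 0 < G x) : False := by
  have hanti : AntitoneOn F (Ici R) := by
    refine antitoneOn_of_deriv_nonpos (convex_Ici R) ?_ ?_ ?_
    · exact fun x _ => (hF x).continuousAt.continuousWithinAt
    · exact fun x _ => (hF x).differentiableAt.differentiableWithinAt
    · intro x hx
      rw [interior_Ici] at hx
      rw [(hF x).deriv]
      have := hpos x (le_of_lt hx)
      linarith
  by_cases hneg : ∃ S, R ≤ S ∧ F S < 0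
  · obtain ⟨S, hS, hFS⟩ := hneg
    obtain ⟨δ, hδ⟩ : ∃ δ, δ = -F S := ⟨_, rfl⟩
    have hδ0 : 0 < δ := by rw [hδ]; linarith
    have hd : ∀ x, HasDerivAt (fun y => y * G y + δ / 2 * y ^ 2) (x * F x + δ / 2 * (2 * x)) x := by
      intro x
      have h1 := (hasDerivAt_pow 2 x).const_mul (δ / 2)
      refine ((hG x).add h1).congr_deriv ?_
      norm_num
    have hanti2 : AntitoneOn (fun y => y * G y + δ / 2 * y ^ 2) (Ici S) := by
      refine antitoneOn_of_deriv_nonpos (convex_Ici S) ?_ ?_ ?_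
      · exact fun x _ => (hd x).continuousAt.continuousWithinAt
      · exact fun x _ => (hd x).differentiableAt.differentiableWithinAt
      · intro x hx
        rw [interior_Ici] at hx
        have hx' : S < x := hx
        rw [(hd x).deriv]
        have h1 : F x ≤ F S := hanti hS (hS.trans hx'.le) hx'.le
        have h2 : 0 < x := by linarith
        nlinarith
    -- a large point
    obtain ⟨V, hV⟩ : ∃ V, V = S * G S + δ / 2 * S ^ 2 := ⟨_, rfl⟩
    obtain ⟨x, hx⟩ : ∃ x, x = max S (2 * |V| / δ + 1) := ⟨_, rfl⟩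
    have hxS : S ≤ x := by rw [hx]; exact le_max_left _ _
    have hxV : 2 * |V| / δ + 1 ≤ x := by rw [hx]; exact le_max_right _ _
    have h3 : x * G x + δ / 2 * x ^ 2 ≤ V := by
      rw [hV]
      exact hanti2 (mem_Ici.2 le_rfl) (mem_Ici.2 hxS) hxS
    have h4 := hpos x (hS.trans hxS)
    have hx1 : 1 ≤ x := by linarith
    have h5 : 0 < x * G x := by positivity
    have h6 : 2 * |V| ≤ (x - 1) * δ := by
      have : 2 * |V| / δ ≤ x - 1 := by linarith
      rwa [div_le_iff₀ hδ0] at this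
    have h7 := le_abs_self V
    have h8 : δ / 2 * x ≤ δ / 2 * x ^ 2 := by
      apply mul_le_mul_of_nonneg_left _ (by positivity)
      nlinarith
    linarith
  · push Not at hneg
    have hmono : MonotoneOn (fun y => y * G y) (Ici R) := by
      refine monotoneOn_of_deriv_nonneg (convex_Ici R) ?_ ?_ ?_
      · exact fun x _ => (hG x).continuousAt.continuousWithinAt
      · exact fun x _ => (hG x).differentiableAt.differentiableWithinAt
      · intro x hx
        rw [interior_Ici] at hx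
        have hx' : R < x := hx
        rw [(hG x).deriv]
        exact mul_nonneg (by linarith) (hneg x hx'.le)
    obtain ⟨c, hc⟩ : ∃ c, c = R * G R := ⟨_, rfl⟩
    have hc0 : 0 < c := by
      rw [hc]
      exact mul_pos (by linarith) (hpos R le_rfl)
    have hd : ∀ x, 0 < x → HasDerivAt (fun y => F y + c * Real.log y) (-G x + c * x⁻¹) x := by
      intro x hx
      exact (hF x).add ((Real.hasDerivAt_log hx.ne').const_mul c)
    have hanti2 : AntitoneOn (fun y => F y + c * Real.log y) (Ici R) := by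
      refine antitoneOn_of_deriv_nonpos (convex_Ici R) ?_ ?_ ?_
      · intro x hx
        have hx' : R ≤ x := hx
        exact (hd x (by linarith)).continuousAt.continuousWithinAt
      · intro x hx
        rw [interior_Ici] at hx
        have hx' : R < x := hx
        exact (hd x (by linarith)).differentiableAt.differentiableWithinAt
      · intro x hx
        rw [interior_Ici] at hx
        have hx' : R < x := hx
        have hx0 : 0 < x := by linarith
        rw [(hd x hx0).deriv]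
        have h1 : c ≤ x * G x := by
          rw [hc]
          exact hmono (mem_Ici.2 le_rfl) (mem_Ici.2 hx'.le) hx'.le
        have h2 : c * x⁻¹ ≤ G x := by
          rw [← div_eq_mul_inv, div_le_iff₀ hx0]
          linarith
        linarith
    obtain ⟨V, hV⟩ : ∃ V, V = F R + c * Real.log R := ⟨_, rfl⟩
    obtain ⟨x, hx⟩ : ∃ x, x = max R (Real.exp (|V| / c + 1)) := ⟨_, rfl⟩
    have hxR : R ≤ x := by rw [hx]; exact le_max_left _ _
    have hxV : Real.exp (|V| / c + 1) ≤ x := by rw [hx]; exact le_max_right _ _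
    have h3 : F x + c * Real.log x ≤ V := by
      rw [hV]
      exact hanti2 (mem_Ici.2 le_rfl) (mem_Ici.2 hxR) hxR
    have h4 := hneg x hxR
    have h5 : |V| / c + 1 ≤ Real.log x := by
      rw [Real.le_log_iff_exp_le (by linarith)]
      exact hxV
    have h6 : c * (|V| / c + 1) ≤ c * Real.log x := mul_le_mul_of_nonneg_left h5 hc0.le
    have h7 : c * (|V| / c + 1) = |V| + c := by
      field_simp
    have h8 := le_abs_self V
    linarith

theorem J1_cont : ContinuousOn (fun x => Fb x 1) (Ici 1) := by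
  intro x hx
  have hx' : (1:ℝ) ≤ x := hx
  have hx0 : x ≠ 0 := by linarith
  have h1 : ContinuousAt (fun y => (y * Fb y 1) / y) x :=
    (J1_deriv x).continuousAt.div continuousAt_id hx0
  refine (h1.congr ?_).continuousWithinAt
  filter_upwards [isOpen_ne.mem_nhds hx0] with y hy
  have hy' : y ≠ 0 := hy
  field_simp

theorem proof_J1Z : S_J1Z := by
  intro R0
  obtain ⟨R, hR⟩ : ∃ R, R = max R0 1 := ⟨_, rfl⟩
  have hR0 : R0 ≤ R := by rw [hR]; exact le_max_left _ _
  have hR1 : 1 ≤ R := by rw [hR]; exact le_max_right _ _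
  by_contra hcon
  push Not at hcon
  have hne : ∀ x, R ≤ x → Fb x 1 ≠ 0 := fun x hx => hcon x (hR0.trans hx)
  have hcont : ∀ x y : ℝ, R ≤ x → ContinuousOn (fun x => Fb x 1) (Icc x y) := by
    intro x y hx
    exact J1_cont.mono fun z hz => hR1.trans (hx.trans hz.1)
  rcases lt_or_gt_of_ne (hne R le_rfl) with h1 | h1
  · -- negative
    refine no_pos (F := fun x => -Fb x 0) (G := fun x => -Fb x 1) ?_ ?_ hR1 ?_
    · intro x
      exact (J0_deriv x).neg
    · intro x
      have h2 := (J1_deriv x).neg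
      have e : (-fun y => y * Fb y 1) = fun y => y * -Fb y 1 := by
        funext y
        change -(y * Fb y 1) = y * -Fb y 1
        ring
      rw [e] at h2
      refine h2.congr_deriv ?_
      ring
    · intro x hx
      by_contra h2
      push Not at h2
      have h3 : 0 ≤ Fb x 1 := by linarith
      obtain ⟨y, hy, hy0⟩ := intermediate_value_Icc hx (hcont R x le_rfl) ⟨h1.le, h3⟩
      exact hne y hy.1 hy0
  · refine no_pos (F := fun x => Fb x 0) (G := fun x => Fb x 1) J0_deriv J1_deriv hR1 ?_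
    intro x hx
    by_contra h2
    push Not at h2
    obtain ⟨y, hy, hy0⟩ := intermediate_value_Icc' hx (hcont R x le_rfl) ⟨h2, h1.le⟩
    exact hne y hy.1 hy0

end Pool.Agent.H264.SfJ1Z
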