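import Pool.Agent.H770.GS.TD
import Pool.Agent.H770.GS.TA3

/-! Project TD (helper770), task TD-3 (helper264): assembly, a variant of
`Pool/Agent/H628/TCn3P1.lean`. -/

set_option autoImplicit false

open MeasureTheory Set intervalIntegral Filter Topology

namespace Pool.Agent.H264.TDn3P2

open Pool.Agent.Helper82.GC Pool.Agent.H770.GS

variable (hm1 : S_mono2) (hq1 : S_n3Q1) (hd1 : S_D1) (hcq : S_cutQ) (hcd : S_cutd) (hneg : S_cutup)

include hm1 hd1 in
theorem sub_nonneg' (H : TAHyp) {r c v : ℝ} (hr : 0 < r) (hr3 : r ≤ 1) (hc : 1 ≤ c)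
    (hc2 : c ^ 2 ≤ 3) (hv : 0 < v) (hvr : v < r) (hcut : c * (r + v) ≤ 2 * r) :
    0 ≤ Qf r c v - v * Qd r c v := by
  have hc0 : 0 < c := by linarith
  refine le_trans ?_ (hd1 r c v hr (by nlinarith) hc0 hv hvr hcut)
  have hm := hm1 r c hr hr3 hc hc2
  have hsub : Icc (r - v) (r + v) ⊆ Icc (0:ℝ) (2 * r / c) := by
    intro a ha
    refine ⟨by linarith [ha.1], ?_⟩
    rw [le_div_iff₀ hc0]
    have := mul_le_mul_of_nonneg_left ha.2 hc0.le
    linarith
  have h := H.comp H.i1 r v (fun a => Mc r c a / W a) hv hvr (hm.1.mono hsub)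
    (fun a ha => div_nonneg (hm.2 a (hsub ha)) (W_pos a).le)
    ((Mc_cont r c).continuousOn.div W_cont.continuousOn fun a _ => (W_pos a).ne')
  refine le_trans h (le_of_eq ?_)
  congr 1
  ext a
  rw [div_mul_cancel₀ _ (W_pos a).ne']

/-- antitone quotient from the sign of `F - v F'` -/
theorem div_anti {F F' : ℝ → ℝ} (hF : ∀ x, HasDerivAt F (F' x) x) {a b : ℝ} (ha : 0 < a)
    (hab : a ≤ b) (h : ∀ x, a < x → x < b → 0 ≤ F x - x * F' x) : a * F b ≤ b * F a := by
  have hanti : AntitoneOn (fun v => F v / v) (Icc a b) := by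
    have hd : ∀ x ∈ Icc a b, HasDerivAt (fun v => F v / v) ((F' x * x - F x * 1) / x ^ 2) x := by
      intro x hx
      exact (hF x).div (hasDerivAt_id x) (by have := hx.1; simp; linarith)
    refine antitoneOn_of_deriv_nonpos (convex_Icc _ _) ?_ ?_ ?_
    · exact fun x hx => (hd x hx).continuousAt.continuousWithinAt
    · intro x hx
      rw [interior_Icc] at hx
      exact (hd x ⟨hx.1.le, hx.2.le⟩).differentiableAt.differentiableWithinAt
    · intro x hx
      rw [interior_Icc] at hx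
      rw [(hd x ⟨hx.1.le, hx.2.le⟩).deriv]
      have h1 := h x hx.1 hx.2
      apply div_nonpos_of_nonpos_of_nonneg
      · nlinarith
      · positivity
  have h1 := hanti (left_mem_Icc.2 hab) (right_mem_Icc.2 hab) hab
  simp only at h1
  rw [div_le_div_iff₀ (ha.trans_le hab) ha] at h1
  linarith

include hm1 hd1 hcd hneg in
theorem cut_nonneg (H : TAHyp) {r c w : ℝ} (hr : 0 < r) (hr3 : r ≤ 1) (hc : 1 ≤ c)
    (hc2 : c ^ 2 ≤ 3) (hw : 2 * r / c - r ≤ w) (hwr : w < r) :
    0 ≤ Qc r c w - w * Qcd r c w := by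
  have hc0 : 0 < c := by linarith
  have hc3 : c < 2 := by nlinarith
  set w₁ := 2 * r / c - r with hw₁
  have hcw : c * (r + w₁) = 2 * r := by
    rw [hw₁]
    field_simp
    ring
  have hw₁0 : 0 < w₁ := by
    rw [hw₁, sub_pos, lt_div_iff₀ hc0]
    nlinarith
  have hw₁r : w₁ < r := lt_of_le_of_lt hw hwr
  have h1 := sub_nonneg' hm1 hd1 H hr hr3 hc hc2 hw₁0 hw₁r hcw.le
  have e0 : r + w₁ = 2 * r / c := by rw [hw₁]; ring
  have e1 : Qc r c w₁ = Qf r c w₁ := by
    unfold Qc Qf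
    rw [e0]
  have e2 : Qcd r c w₁ = Qd r c w₁ - W r * nL r (2 * r) := by
    unfold Qcd Qd
    rw [hcw, e0]
    ring
  have hnL : nL r (2 * r) = Real.exp (-r ^ 2) := by
    unfold nL fL
    have e : r - 2 * r / 2 = 0 := by ring
    rw [e, I2_zero]
    have e5 : -(2 * r) ^ 2 / 4 = -r ^ 2 := by ring
    rw [e5]
    simp
  obtain ⟨E, hE⟩ : ∃ E, E = Real.exp (-r ^ 2) := ⟨_, rfl⟩
  have hE0 : 0 < E := by rw [hE]; exact Real.exp_pos _
  have hWr : (3 / 5 : ℝ) ≤ W r := by
    have h3 : Real.exp (-1 / 2) ≤ W r := by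
      unfold W
      apply Real.exp_le_exp.2
      nlinarith
    have h4 : (3 / 5 : ℝ) ≤ Real.exp (-1 / 2) := by
      have h5 : Real.exp (-1 / 2) = (Real.exp (1 / 2))⁻¹ := by
        rw [← Real.exp_neg]
        congr 1
        norm_num
      have h6 : Real.exp (1 / 2) ≤ 5 / 3 := by
        have h7 : Real.exp (1 / 2) * Real.exp (1 / 2) = Real.exp 1 := by
          rw [← Real.exp_add]
          norm_num
        have h8 := Real.exp_one_lt_d9
        have h9 := Real.exp_pos (1 / 2)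
        nlinarith
      rw [h5, le_inv_comm₀ (by norm_num) (Real.exp_pos _)]
      norm_num
      linarith
    linarith
  have hρ : 3 / 20 * r ≤ w₁ := by
    rw [hw₁, le_sub_iff_add_le, le_div_iff₀ hc0]
    have hc4 : c ≤ 40 / 23 := by nlinarith
    nlinarith [mul_le_mul_of_nonneg_left hc4 hr.le]
  -- the value at `w₁`
  have h2 : w₁ * (W r * E) ≤ Qc r c w₁ - w₁ * Qcd r c w₁ := by
    rw [e1, e2, hnL, ← hE]
    have h4 : Qf r c w₁ - w₁ * (Qd r c w₁ - W r * E) =
        (Qf r c w₁ - w₁ * Qd r c w₁) + w₁ * (W r * E) := by ring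
    rw [h4]
    linarith
  obtain ⟨G, hG⟩ : ∃ G : ℝ → ℝ, G = fun x => Qc r c x - x * Qcd r c x := ⟨_, rfl⟩
  have hGd : ∀ x, HasDerivAt G (-(x * Qcdd r c x)) x := by
    intro x
    have h3 := (hcd r c x).1.sub ((hasDerivAt_id x).mul (hcd r c x).2)
    have e3 : Qcd r c x - (1 * Qcd r c x + id x * Qcdd r c x) = -(x * Qcdd r c x) := by
      simp only [id]
      ring
    rw [e3] at h3
    rw [hG]
    exact h3
  have hG1 : w₁ * (W r * E) ≤ G w₁ := by
    rw [hG]
    exact h2
  -- monotonicity above `2r/5`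
  have mono1 : ∀ x y, w₁ ≤ x → 2 * r / 5 ≤ x → x ≤ y → y < r → G x ≤ G y := by
    intro x y hx hx2 hxy hy
    have hmono : MonotoneOn G (Icc x y) := by
      refine monotoneOn_of_deriv_nonneg (convex_Icc _ _) ?_ ?_ ?_
      · exact fun z _ => (hGd z).continuousAt.continuousWithinAt
      · exact fun z _ => (hGd z).differentiableAt.differentiableWithinAt
      · intro z hz
        rw [interior_Icc] at hz
        rw [(hGd z).deriv]
        have hz0 : 0 < z := (hw₁0.trans_le hx).trans hz.1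
        have h3 := (hneg r c z hr hr3 hc hc2 hz0.le (hz.2.trans hy).le (by
          rw [← hcw]
          have := hz.1
          gcongr
          linarith)).2 (by linarith [hz.1])
        nlinarith
    exact hmono (left_mem_Icc.2 hxy) (right_mem_Icc.2 hxy) hxy
  -- the loss below `2r/5`
  have mono2 : ∀ y, w₁ ≤ y → y < r →
      G w₁ + 3 / 8 * r * E * w₁ ^ 2 ≤ G y + 3 / 8 * r * E * y ^ 2 := by
    intro y hy hyr
    have hd2 : ∀ z, HasDerivAt (fun x => G x + 3 / 8 * r * E * x ^ 2)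
        (-(z * Qcdd r c z) + 3 / 8 * r * E * (2 * z)) z := by
      intro z
      have h3 := (hasDerivAt_pow 2 z).const_mul (3 / 8 * r * E)
      have h4 := (hGd z).add h3
      refine h4.congr_deriv ?_
      norm_num
    have hmono : MonotoneOn (fun x => G x + 3 / 8 * r * E * x ^ 2) (Icc w₁ y) := by
      refine monotoneOn_of_deriv_nonneg (convex_Icc _ _) ?_ ?_ ?_
      · exact fun z _ => (hd2 z).continuousAt.continuousWithinAt
      · exact fun z _ => (hd2 z).differentiableAt.differentiableWithinAt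
      · intro z hz
        rw [interior_Icc] at hz
        rw [(hd2 z).deriv]
        have hz0 : 0 < z := hw₁0.trans hz.1
        have h3 := (hneg r c z hr hr3 hc hc2 hz0.le (hz.2.trans hyr).le (by
          rw [← hcw]
          have := hz.1
          gcongr)).1
        rw [← hE] at h3
        have h4 := mul_le_mul_of_nonneg_left h3 hz0.le
        norm_num at h4
        nlinarith
    exact hmono (left_mem_Icc.2 hy) (right_mem_Icc.2 hy) hy
  have low : ∀ y, w₁ ≤ y → y ≤ 2 * r / 5 → y < r → 0 ≤ G y := by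
    intro y hy hy2 hyr
    have h3 := mono2 y hy hyr
    have hy0 : 0 < y := hw₁0.trans_le hy
    have h4 : y ^ 2 ≤ 4 / 25 * r ^ 2 := by nlinarith
    have h5 : 3 / 8 * r * E * y ^ 2 ≤ 3 / 8 * r * E * (4 / 25 * r ^ 2) :=
      mul_le_mul_of_nonneg_left h4 (by positivity)
    have h6 : 3 / 8 * r * E * (4 / 25 * r ^ 2) ≤ w₁ * (W r * E) := by
      have h7 : 3 / 20 * r * (3 / 5 * E) ≤ w₁ * (W r * E) :=
        mul_le_mul hρ (mul_le_mul_of_nonneg_right hWr hE0.le) (by positivity) hw₁0.le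
      have h8 : r ^ 2 ≤ 1 := by nlinarith
      have h9 : 0 < r * E := by positivity
      nlinarith [mul_le_mul_of_nonneg_left h8 h9.le]
    have h10 : 0 ≤ 3 / 8 * r * E * w₁ ^ 2 := by positivity
    linarith
  have hfin : 0 ≤ G w := by
    rcases le_total w (2 * r / 5) with h3 | h3
    · exact low w hw h3 hwr
    · rcases le_total w₁ (2 * r / 5) with h4 | h4
      · exact (low (2 * r / 5) h4 le_rfl (by linarith)).trans
          (mono1 (2 * r / 5) w h4 le_rfl h3 hwr)
      · refine le_trans ?_ (mono1 w₁ w le_rfl h4 hw hwr)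
        refine le_trans ?_ hG1
        have := W_pos r
        positivity
  rw [hG] at hfin
  exact hfin

include hm1 hq1 hd1 hcq hcd hneg in
theorem near' (H : TAHyp) {r c : ℝ} (hr : 0 < r) (hr3 : r ≤ 1) (hc : 1 ≤ c)
    (hc2 : c ^ 2 ≤ 3) {v v' : ℝ} (hv : 0 < v) (hvv : v ≤ v') (hv' : v' ≤ r) :
    v * n3 r c (c * v') ≤ v' * n3 r c (c * v) := by
  have hc0 : 0 < c := by linarith
  have hc3 : c < 2 := by nlinarith
  set w₁ := 2 * r / c - r with hw₁
  have hcw : c * (r + w₁) = 2 * r := by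
    rw [hw₁]
    field_simp
    ring
  have hw₁0 : 0 < w₁ := by
    rw [hw₁, sub_pos, lt_div_iff₀ hc0]
    nlinarith
  have hw₁r : w₁ ≤ r := by
    rw [hw₁]
    have : 2 * r / c ≤ 2 * r := div_le_self (by linarith) hc
    linarith
  have lo : ∀ x y, 0 < x → x ≤ y → y ≤ w₁ → x * n3 r c (c * y) ≤ y * n3 r c (c * x) := by
    intro x y hx hxy hy
    have hcut : ∀ z, z ≤ w₁ → c * (r + z) ≤ 2 * r := by
      intro z hz
      rw [← hcw]
      gcongr
    rw [hq1 r c y hr hc0 (hx.trans_le hxy).le (hy.trans hw₁r) (hcut y hy),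
      hq1 r c x hr hc0 hx.le ((hxy.trans hy).trans hw₁r) (hcut x (hxy.trans hy))]
    exact div_anti (fun z => H.qd r c z) hx hxy (fun z hz1 hz2 =>
      sub_nonneg' hm1 hd1 H hr hr3 hc hc2 (hx.trans hz1) (hz2.trans_le (hy.trans hw₁r))
        (hcut z (hz2.le.trans hy)))
  have hi : ∀ x y, w₁ ≤ x → x ≤ y → y ≤ r → x * n3 r c (c * y) ≤ y * n3 r c (c * x) := by
    intro x y hx hxy hy
    have hcut : ∀ z, w₁ ≤ z → 2 * r ≤ c * (r + z) := by
      intro z hz
      rw [← hcw]
      gcongr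
    have hx0 : 0 < x := hw₁0.trans_le hx
    rw [hcq r c y hr hc0 hc3.le (hx0.le.trans hxy) hy (hcut y (hx.trans hxy)),
      hcq r c x hr hc0 hc3.le hx0.le (hxy.trans hy) (hcut x hx)]
    exact div_anti (fun z => (hcd r c z).1) hx0 hxy (fun z hz1 hz2 =>
      cut_nonneg hm1 hd1 hcd hneg H hr hr3 hc hc2 (hx.trans hz1.le) (hz2.trans_le hy))
  rcases le_total v' w₁ with h1 | h1
  · exact lo v v' hv hvv h1
  rcases le_total w₁ v with h2 | h2
  · exact hi v v' h2 hvv hv'
  have h3 := lo v w₁ hv h2 le_rfl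
  have h4 := hi w₁ v' le_rfl h1 hv'
  have h5 : w₁ * (v * n3 r c (c * v')) ≤ w₁ * (v' * n3 r c (c * v)) := by
    calc w₁ * (v * n3 r c (c * v')) = v * (w₁ * n3 r c (c * v')) := by ring
      _ ≤ v * (v' * n3 r c (c * w₁)) := mul_le_mul_of_nonneg_left h4 hv.le
      _ = v' * (v * n3 r c (c * w₁)) := by ring
      _ ≤ v' * (w₁ * n3 r c (c * v)) := mul_le_mul_of_nonneg_left h3 (hv.trans_le hvv).le
      _ = w₁ * (v' * n3 r c (c * v)) := by ring
  exact le_of_mul_le_mul_left h5 hw₁0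

theorem of_hyp (H : TAHyp) : S_n3P2 := by
  intro hm1 hq1 hd1 hcq hcd hneg r c hr hr3 hc hc2
  have hc0 : 0 < c := by linarith
  have hreg := H.reg r c hr hc0
  have hcr : 0 < c * r := mul_pos hc0 hr
  have near : ∀ v v', 0 < v → v ≤ v' → v' ≤ c * r → v * n3 r c v' ≤ v' * n3 r c v := by
    intro v v' hv hvv hv'
    have e : ∀ x : ℝ, c * (x / c) = x := fun x => by field_simp
    have h1 : v' / c ≤ r := by rw [div_le_iff₀ hc0]; linarith
    have h2 : v / c ≤ v' / c := div_le_div_of_nonneg_right hvv hc0.le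
    have h := near' hm1 hq1 hd1 hcq hcd hneg H hr hr3 hc hc2 (div_pos hv hc0) h2 h1
    rw [e, e] at h
    have h3 := mul_le_mul_of_nonneg_left h hc0.le
    rw [← mul_assoc, ← mul_assoc, e, e] at h3
    exact h3
  refine ⟨hreg.1, hreg.2.1, ?_⟩
  intro v v' hv hvv _
  have hfar := H.far H.repr H.reg r c hr hc0
  rcases le_total v' (c * r) with h1 | h1
  · exact near v v' hv hvv h1
  rcases le_total (c * r) v with h2 | h2
  · exact hfar v v' hv hvv (by linarith)
  have h3 := near v (c * r) hv h2 le_rfl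
  have h4 := hfar (c * r) v' hcr h1 (by linarith)
  have h5 : c * r * (v * n3 r c v') ≤ c * r * (v' * n3 r c v) := by
    calc c * r * (v * n3 r c v') = v * (c * r * n3 r c v') := by ring
      _ ≤ v * (v' * n3 r c (c * r)) := mul_le_mul_of_nonneg_left h4 hv.le
      _ = v' * (v * n3 r c (c * r)) := by ring
      _ ≤ v' * (c * r * n3 r c v) := mul_le_mul_of_nonneg_left h3 (hv.trans_le hvv).le
      _ = c * r * (v' * n3 r c v) := by ring
  exact le_of_mul_le_mul_left h5 hcr

theorem n3P2 : S_n3P2 := of_hyp taHyp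

end Pool.Agent.H264.TDn3P2
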