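import Pool.Agent.H426.Ru.Noe

/-!
# Task T4 of helper426 (`prime_cond`), by helper264
-/

set_option autoImplicit false

namespace Pool.Agent.H264.TwoT4

open MvPolynomial Finset
open Pool.Agent.H426.Ru (HG)

section

attribute [local instance] MvPolynomial.gradedAlgebra

/-- an ideal closed under taking components is generated by finitely many forms -/
lemma HG_of {K : Type} [Field K] {n : ℕ} (I : Ideal (MvPolynomial (Fin n) K))
    (h : ∀ p ∈ I, ∀ d, homogeneousComponent d p ∈ I) : HG I := by
  classical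
  obtain ⟨S, hS⟩ := (inferInstance : IsNoetherianRing (MvPolynomial (Fin n) K)).noetherian I
  have hS' : I = Ideal.span (S : Set (MvPolynomial (Fin n) K)) := hS.symm
  obtain ⟨T, hTdef⟩ : ∃ T : Finset (MvPolynomial (Fin n) K), T = S.biUnion fun p =>
    (Finset.range (p.totalDegree + 1)).image fun d => homogeneousComponent d p := ⟨_, rfl⟩
  have hT : ∀ t ∈ T, ∃ d, t.IsHomogeneous d := by
    intro t ht
    rw [hTdef] at ht
    obtain ⟨p, hp, ht⟩ := Finset.mem_biUnion.1 ht
    obtain ⟨d, hd, rfl⟩ := Finset.mem_image.1 ht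
    exact ⟨d, homogeneousComponent_isHomogeneous d p⟩
  choose g hg using hT
  refine ⟨T.card, fun k => (T.equivFin.symm k : MvPolynomial (Fin n) K),
    fun k => g (T.equivFin.symm k) (T.equivFin.symm k).2, fun k => hg _ _, ?_⟩
  have hr : Set.range (fun k => (T.equivFin.symm k : MvPolynomial (Fin n) K)) =
      (T : Set (MvPolynomial (Fin n) K)) := by
    ext t
    constructor
    · rintro ⟨k, rfl⟩
      exact (T.equivFin.symm k).2
    · intro ht
      refine ⟨T.equivFin ⟨t, ht⟩, ?_⟩
      change ((T.equivFin.symm (T.equivFin ⟨t, ht⟩) : T) : MvPolynomial (Fin n) K) = t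
      rw [Equiv.symm_apply_apply]
  rw [hr]
  apply le_antisymm
  · rw [hS']
    refine Ideal.span_le.2 ?_
    intro p hp
    have h1 := sum_homogeneousComponent p
    rw [SetLike.mem_coe, ← h1]
    refine Ideal.sum_mem _ fun d hd => ?_
    refine Ideal.subset_span ?_
    rw [hTdef]
    exact Finset.mem_coe.2 (Finset.mem_biUnion.2 ⟨p, Finset.mem_coe.1 hp,
      Finset.mem_image.2 ⟨d, hd, rfl⟩⟩)
  · refine Ideal.span_le.2 ?_
    intro t ht
    rw [hTdef] at ht
    obtain ⟨p, hp, ht⟩ := Finset.mem_biUnion.1 (Finset.mem_coe.1 ht)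
    obtain ⟨d, hd, rfl⟩ := Finset.mem_image.1 ht
    exact h p (by rw [hS']; exact Ideal.subset_span (Finset.mem_coe.2 hp)) d

/-- components and homogeneous substitutions -/
lemma comp_aeval {K : Type} [Field K] {q D : ℕ} {τ : Type} (hD : 1 ≤ D)
    (P : Fin q → MvPolynomial τ K) (hP : ∀ j, (P j).IsHomogeneous D)
    (p : MvPolynomial (Fin q) K) (d : ℕ) :
    homogeneousComponent (D * d) (aeval P p) = aeval P (homogeneousComponent d p) := by
  have h1 := sum_homogeneousComponent p
  have h2 : aeval P p = ∑ i ∈ range (p.totalDegree + 1), aeval P (homogeneousComponent i p) := by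
    conv_lhs => rw [← h1]
    rw [map_sum]
  have h3 : ∀ i, homogeneousComponent (D * d) (aeval P (homogeneousComponent i p)) =
      if i = d then aeval P (homogeneousComponent i p) else 0 := by
    intro i
    have h4 : (aeval P (homogeneousComponent i p)).IsHomogeneous (D * i) :=
      (homogeneousComponent_isHomogeneous i p).aeval P hP
    rw [homogeneousComponent_of_mem h4]
    by_cases hi : i = d
    · rw [if_pos hi, if_pos (by rw [hi])]
    · rw [if_neg hi, if_neg]
      intro h5
      exact hi (Nat.eq_of_mul_eq_mul_left hD h5).symm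
  rw [h2, map_sum, Finset.sum_congr rfl fun i _ => h3 i, Finset.sum_ite_eq']
  by_cases hd : d ∈ range (p.totalDegree + 1)
  · rw [if_pos hd]
  · rw [if_neg hd, homogeneousComponent_eq_zero, map_zero]
    rw [Finset.mem_range] at hd
    omega

/-- span of forms is closed under components -/
lemma comp_span {K : Type} [Field K] {τ ι : Type} (G : ι → MvPolynomial τ K) (g : ι → ℕ)
    (hG : ∀ k, (G k).IsHomogeneous (g k)) (p : MvPolynomial τ K)
    (hp : p ∈ Ideal.span (Set.range G)) (d : ℕ) :
    homogeneousComponent d p ∈ Ideal.span (Set.range G) := by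
  refine homogeneousComponent_mem_of_mem ?_ hp d
  refine Ideal.homogeneous_span _ _ ?_
  rintro _ ⟨k, rfl⟩
  exact ⟨g k, hG k⟩

end

/-- scaling -/
lemma scale {K : Type} [Field K] {n t : ℕ} {E : Type} [Field E] [Algebra K E] (c : E)
    (y : Fin n → E) (p : MvPolynomial (Fin n) K) (hp : p.IsHomogeneous t) :
    aeval (fun i => c * y i) p = c ^ t * aeval y p := by
  rw [aeval_def, aeval_def, eval₂_eq, eval₂_eq, Finset.mul_sum]
  refine Finset.sum_congr rfl fun β hβ => ?_
  have hdeg : β.degree = t := by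
    have := hp (mem_support_iff.1 hβ)
    exact (DFunLike.congr_fun (Finsupp.degree_eq_weight_one (σ := Fin n) (R := ℕ)) β).trans this
  simp only [mul_pow, Finset.prod_mul_distrib]
  rw [Finset.prod_pow_eq_pow_sum]
  have h2 : ∑ i ∈ β.support, β i = t := hdeg
  rw [h2]
  ring

lemma val_lem {A : Type} [CommRing A] (Q : Ideal A) [Q.IsPrime] {E : Type} [Field E]
    (f : A →+* E) (hker : ∀ a, f a = 0 → a ∈ Q) :
    ∃ O : ValuationSubring E, (∀ a, f a ∈ O) ∧ ∀ a, a ∈ Q ↔ O.valuation (f a) < 1 := by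
  have hu : ∀ y : Q.primeCompl, IsUnit (f y) := fun y =>
    isUnit_iff_ne_zero.2 (fun h => y.2 (hker _ h))
  obtain ⟨g, hg⟩ : ∃ g : Localization.AtPrime Q →+* E,
      ∀ a, g (algebraMap A (Localization.AtPrime Q) a) = f a :=
    ⟨IsLocalization.lift hu, fun a => IsLocalization.lift_eq hu a⟩
  obtain ⟨O, h, hloc⟩ := IsLocalRing.exists_factor_valuationRing g
  refine ⟨O, fun a => by rw [← hg]; exact h _, fun a => ?_⟩
  have h1 : a ∈ Q ↔ algebraMap A (Localization.AtPrime Q) a ∈
      IsLocalRing.maximalIdeal (Localization.AtPrime Q) :=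
    (IsLocalization.AtPrime.to_map_mem_maximal_iff (Localization.AtPrime Q) Q a).symm
  have h2 : algebraMap A (Localization.AtPrime Q) a ∈
      IsLocalRing.maximalIdeal (Localization.AtPrime Q) ↔
      (g.codRestrict O.toSubring h) (algebraMap A (Localization.AtPrime Q) a) ∈
        IsLocalRing.maximalIdeal O :=
    not_congr (isUnit_map_iff (g.codRestrict O.toSubring h) _).symm
  rw [h1, h2, ValuationSubring.valuation_lt_one_iff, ← hg]
  rfl

lemma core {K : Type} [Field K] {n m q N δ e : ℕ} (hδ : 1 ≤ δ)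
    (G : Fin m → MvPolynomial (Fin n) K) (g : Fin m → ℕ) (hG : ∀ k, (G k).IsHomogeneous (g k))
    (F : Fin q → MvPolynomial (Fin n) K) (hF : ∀ i, (F i).IsHomogeneous e)
    (hgp : ∀ J : Fin (N + 1) ↪ Fin q, ∀ (E : Type) [Field E] [Algebra K E] (x : Fin n → E),
      (∀ k, aeval x (G k) = 0) → (∀ k, aeval x (F (J k)) = 0) → x = 0)
    {E : Type} [Field E] [Algebra K E] (x : Fin δ → Fin n → E) (hx0 : ∀ s, x s ≠ 0)
    (hxG : ∀ s k, aeval (x s) (G k) = 0) (O : ValuationSubring E)
    (hKO : ∀ a : K, algebraMap K E a ∈ O) (k0 : Fin q)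
    (hk0 : ¬ O.valuation (∏ s, aeval (x s) (F k0)) < 1)
    (J : Finset (Fin q)) (hJ : N * δ < J.card)
    (hJ2 : ∀ j ∈ J, O.valuation (∏ s, aeval (x s) (F j)) < 1) : False := by
  classical
  have hmax : ∀ s, ∃ i, ∀ i', O.valuation (x s i') ≤ O.valuation (x s i) := by
    intro s
    obtain ⟨i1, hi1⟩ := Function.ne_iff.1 (hx0 s)
    have : Nonempty (Fin n) := ⟨i1⟩
    exact Finite.exists_max fun i => O.valuation (x s i)
  choose im him using hmax
  have hc0 : ∀ s, x s (im s) ≠ 0 := by
    intro s h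
    obtain ⟨i1, hi1⟩ := Function.ne_iff.1 (hx0 s)
    have h1 := him s i1
    rw [h, map_zero, le_zero_iff, map_eq_zero] at h1
    exact hi1 h1
  obtain ⟨y, hy⟩ : ∃ y : Fin δ → Fin n → E, ∀ s i, y s i = x s i / x s (im s) :=
    ⟨fun s i => x s i / x s (im s), fun _ _ => rfl⟩
  have hxy : ∀ s, x s = fun i => x s (im s) * y s i := by
    intro s
    funext i
    rw [hy, mul_div_cancel₀ _ (hc0 s)]
  have hyO : ∀ s i, y s i ∈ O := by
    intro s i
    rw [← ValuationSubring.valuation_le_one_iff, hy, map_div₀]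
    exact div_le_one_of_le₀ (him s i) zero_le
  have hy1 : ∀ s, y s (im s) = 1 := fun s => by rw [hy, div_self (hc0 s)]
  have hsc : ∀ s (t : ℕ) (p : MvPolynomial (Fin n) K), p.IsHomogeneous t →
      aeval (x s) p = x s (im s) ^ t * aeval (y s) p := by
    intro s t p hp
    have h1 := scale (x s (im s)) (y s) p hp
    rw [← hxy s] at h1
    exact h1
  -- the coefficients
  obtain ⟨κ, hκ⟩ : ∃ κ : K →+* O, ∀ a, ((κ a : O) : E) = algebraMap K E a :=
    ⟨(algebraMap K E).codRestrict O.toSubring hKO, fun _ => rfl⟩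
  obtain ⟨yO, hyO'⟩ : ∃ yO : Fin δ → Fin n → O, ∀ s i, ((yO s i : O) : E) = y s i :=
    ⟨fun s i => ⟨y s i, hyO s i⟩, fun _ _ => rfl⟩
  have hev : ∀ s (p : MvPolynomial (Fin n) K),
      ((eval₂ κ (yO s) p : O) : E) = aeval (y s) p := by
    intro s p
    have h1 := eval₂_comp_left (O.subtype : O →+* E) κ (yO s) p
    have h2 : (O.subtype : O →+* E).comp κ = algebraMap K E := RingHom.ext fun a => hκ a
    have h3 : (O.subtype : O →+* E) ∘ yO s = y s := funext fun i => hyO' s i
    rw [h2, h3] at h1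
    rw [aeval_def]
    exact h1
  have hvle : ∀ s (p : MvPolynomial (Fin n) K), O.valuation (aeval (y s) p) ≤ 1 := by
    intro s p
    rw [ValuationSubring.valuation_le_one_iff, ← hev]
    exact (eval₂ κ (yO s) p : O).2
  have hprod : ∀ j, O.valuation (∏ s, aeval (x s) (F j)) =
      (∏ s, O.valuation (x s (im s))) ^ e * ∏ s, O.valuation (aeval (y s) (F j)) := by
    intro j
    rw [map_prod, ← Finset.prod_pow, ← Finset.prod_mul_distrib]
    refine Finset.prod_congr rfl fun s _ => ?_
    rw [hsc s e (F j) (hF j), map_mul, map_pow]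
  have hc1 : 1 ≤ (∏ s, O.valuation (x s (im s))) ^ e := by
    have h1 := not_lt.1 hk0
    rw [hprod] at h1
    refine h1.trans ?_
    exact mul_le_of_le_one_right' (Finset.prod_le_one' fun s _ => hvle s _)
  have hs : ∀ j ∈ J, ∃ s, O.valuation (aeval (y s) (F j)) < 1 := by
    intro j hj
    by_contra hcon
    push Not at hcon
    have h1 := hJ2 j hj
    rw [hprod] at h1
    exact absurd (one_le_mul hc1 (Finset.one_le_prod' fun s _ => hcon s)) (not_le.2 h1)
  have hne : Nonempty (Fin δ) := ⟨⟨0, hδ⟩⟩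
  choose! sj hsj using hs
  obtain ⟨s0, -, hs0⟩ := Finset.exists_lt_card_fiber_of_mul_lt_card_of_maps_to
    (s := J) (t := (Finset.univ : Finset (Fin δ))) (f := sj) (n := N)
    (fun a _ => Finset.mem_univ _) (by rw [Finset.card_univ, Fintype.card_fin, mul_comm]; exact hJ)
  obtain ⟨J', hJ'sub, hJ'card⟩ := Finset.exists_subset_card_eq (Nat.succ_le_of_lt hs0)
  let emb : Fin (N + 1) ↪ Fin q := (J'.orderEmbOfFin hJ'card).toEmbedding
  have hemb : ∀ k, emb k ∈ J' := fun k => J'.orderEmbOfFin_mem hJ'card k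
  let _ : Algebra K (IsLocalRing.ResidueField O) := ((IsLocalRing.residue O).comp κ).toAlgebra
  have hres : ∀ p : MvPolynomial (Fin n) K,
      IsLocalRing.residue O (eval₂ κ (yO s0) p) =
        aeval (fun i => IsLocalRing.residue O (yO s0 i)) p := by
    intro p
    have h1 := eval₂_comp_left (IsLocalRing.residue O) κ (yO s0) p
    rw [aeval_def]
    exact h1
  have h0 := hgp emb (IsLocalRing.ResidueField O) (fun i => IsLocalRing.residue O (yO s0 i))
    (by
      intro k
      rw [← hres]
      have h1 : aeval (y s0) (G k) = 0 := by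
        have h2 := hsc s0 (g k) (G k) (hG k)
        rw [hxG] at h2
        rcases mul_eq_zero.1 h2.symm with h3 | h3
        · exact absurd h3 (pow_ne_zero _ (hc0 s0))
        · exact h3
      have h2 : (eval₂ κ (yO s0) (G k) : O) = 0 := by
        apply Subtype.ext
        rw [hev, h1]
        rfl
      rw [h2, map_zero])
    (by
      intro k
      rw [← hres]
      have h1 := Finset.mem_filter.1 (hJ'sub (hemb k))
      have h2 := hsj (emb k) h1.1
      rw [h1.2, ← hev] at h2
      exact (IsLocalRing.residue_eq_zero_iff _).2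
        ((ValuationSubring.valuation_lt_one_iff O _).2 h2))
  have h1 := congrFun h0 (im s0)
  have h2 : yO s0 (im s0) = 1 := by
    apply Subtype.ext
    rw [hyO', hy1]
    rfl
  simp only [h2, map_one, Pi.zero_apply] at h1
  exact one_ne_zero h1

/-- T4. The norms of the values of forms without common zeros: the homogeneous ideal of the image
of the `δ`-fold product, and its primes. -/
theorem prime_cond {K : Type} [Field K] {n m q N δ e : ℕ} (hδ : 1 ≤ δ) (he : 1 ≤ e)
    (G : Fin m → MvPolynomial (Fin n) K) (g : Fin m → ℕ) (hG : ∀ k, (G k).IsHomogeneous (g k))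
    (F : Fin q → MvPolynomial (Fin n) K) (hF : ∀ i, (F i).IsHomogeneous e)
    (hgp : ∀ J : Fin (N + 1) ↪ Fin q, ∀ (E : Type) [Field E] [Algebra K E] (x : Fin n → E),
      (∀ k, aeval x (G k) = 0) → (∀ k, aeval x (F (J k)) = 0) → x = 0) :
    ∃ I : Ideal (MvPolynomial (Fin q) K), HG I ∧
      (∀ (E : Type) [Field E] [Algebra K E] (x : Fin δ → Fin n → E),
        (∀ s k, aeval (x s) (G k) = 0) →
        ∀ p ∈ I, aeval (fun j => ∏ s, aeval (x s) (F j)) p = 0) ∧
      ∀ Q : Ideal (MvPolynomial (Fin q) K), Q.IsPrime → HG Q → I ≤ Q →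
        (∃ J : Finset (Fin q), N * δ < J.card ∧ ∀ j ∈ J, X j ∈ Q) → ∀ k, X k ∈ Q := by
  classical
  let blk : Fin δ → MvPolynomial (Fin n) K →ₐ[K] MvPolynomial (Fin δ × Fin n) K := fun s =>
    rename (fun i => (s, i))
  let Pr : Fin q → MvPolynomial (Fin δ × Fin n) K := fun j => ∏ s, blk s (F j)
  let phi : MvPolynomial (Fin q) K →ₐ[K] MvPolynomial (Fin δ × Fin n) K := aeval Pr
  let GG : Fin δ × Fin m → MvPolynomial (Fin δ × Fin n) K := fun sk => blk sk.1 (G sk.2)
  have hGG : ∀ sk, (GG sk).IsHomogeneous (g sk.2) := fun sk => (hG sk.2).rename_isHomogeneous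
  have hPr : ∀ j, (Pr j).IsHomogeneous (δ * e) := by
    intro j
    have h1 := IsHomogeneous.prod (Finset.univ : Finset (Fin δ)) (fun s => blk s (F j))
      (fun _ => e) (fun s _ => (hF j).rename_isHomogeneous)
    rw [Finset.sum_const, Finset.card_univ, Fintype.card_fin, smul_eq_mul] at h1
    exact h1
  refine ⟨Ideal.comap (phi : MvPolynomial (Fin q) K →+* MvPolynomial (Fin δ × Fin n) K)
    (Ideal.span (Set.range GG)), ?_, ?_, ?_⟩
  · refine HG_of _ fun p hp d => ?_
    rw [Ideal.mem_comap] at hp ⊢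
    change aeval Pr (homogeneousComponent d p) ∈ _
    rw [← comp_aeval (Nat.mul_pos hδ he) Pr hPr p d]
    exact comp_span GG (fun sk => g sk.2) hGG _ hp _
  · intro E _ _ x hx p hp
    rw [Ideal.mem_comap] at hp
    let ev : MvPolynomial (Fin δ × Fin n) K →ₐ[K] E := aeval fun si => x si.1 si.2
    have h1 : ∀ r ∈ Ideal.span (Set.range GG), ev r = 0 := by
      intro r hr
      refine Submodule.span_induction (p := fun r _ => ev r = 0) ?_ ?_ ?_ ?_ hr
      · rintro _ ⟨sk, rfl⟩
        change aeval (fun si : Fin δ × Fin n => x si.1 si.2)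
          (rename (fun i => (sk.1, i)) (G sk.2)) = 0
        rw [aeval_rename]
        exact hx sk.1 sk.2
      · exact map_zero _
      · intro a b _ _ ha hb
        rw [map_add, ha, hb, add_zero]
      · intro a b _ hb
        rw [smul_eq_mul, map_mul, hb, mul_zero]
    have h2 : ev (phi p) = aeval (fun j => ∏ s, aeval (x s) (F j)) p := by
      change ev (aeval Pr p) = _
      rw [comp_aeval_apply]
      refine congrArg (fun f : Fin q → E => aeval f p) (funext fun j => ?_)
      change ev (∏ s, blk s (F j)) = _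
      rw [map_prod]
      refine Finset.prod_congr rfl fun s _ => ?_
      change aeval (fun si : Fin δ × Fin n => x si.1 si.2) (rename (fun i => (s, i)) (F j)) = _
      rw [aeval_rename]
      rfl
    rw [← h2]
    exact h1 _ hp
  · rintro Q hQ - hIQ ⟨J, hJ, hJQ⟩ k0
    by_contra hk0
    have := hQ
    obtain ⟨Q0, hQ0, hQ0Q⟩ := Ideal.exists_minimalPrimes_le hIQ
    obtain ⟨p', hp', hBp', hcomap⟩ := Ideal.exists_comap_eq_of_mem_minimalPrimes
      (phi : MvPolynomial (Fin q) K →+* MvPolynomial (Fin δ × Fin n) K) Q0 hQ0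
    obtain ⟨E, instE, ψ, hψ⟩ : ∃ (E : Type) (_ : Field E)
        (ψ : MvPolynomial (Fin δ × Fin n) K →+* E), ∀ r, ψ r = 0 ↔ r ∈ p' := by
      have := hp'
      refine ⟨FractionRing (MvPolynomial (Fin δ × Fin n) K ⧸ p'), inferInstance,
        (algebraMap (MvPolynomial (Fin δ × Fin n) K ⧸ p')
          (FractionRing (MvPolynomial (Fin δ × Fin n) K ⧸ p'))).comp (Ideal.Quotient.mk p'),
        fun r => ?_⟩
      rw [RingHom.comp_apply, IsFractionRing.to_map_eq_zero_iff, Ideal.Quotient.eq_zero_iff_mem]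
    let _ : Algebra K E := (ψ.comp C).toAlgebra
    have hblk : ∀ s (P : MvPolynomial (Fin n) K),
        aeval (fun i => ψ (X (s, i))) P = ψ (blk s P) := by
      intro s P
      have h1 := eval₂_comp_left ψ C (fun si : Fin δ × Fin n => X si)
        (rename (fun i => (s, i)) P)
      rw [eval₂_eta, eval₂_rename] at h1
      exact h1.symm
    have hf : ∀ j, ψ (phi (X j)) = ∏ s, aeval (fun i => ψ (X (s, i))) (F j) := by
      intro j
      change ψ (aeval Pr (X j)) = _
      rw [aeval_X]
      change ψ (∏ s, blk s (F j)) = _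
      rw [map_prod]
      exact Finset.prod_congr rfl fun s _ => (hblk s (F j)).symm
    have hker : ∀ a, ψ (phi a) = 0 → a ∈ Q := by
      intro a ha
      refine hQ0Q ?_
      rw [← hcomap, Ideal.mem_comap]
      exact (hψ _).1 ha
    obtain ⟨O, hO1, hO2⟩ := val_lem Q
      (ψ.comp (phi : MvPolynomial (Fin q) K →+* MvPolynomial (Fin δ × Fin n) K)) hker
    refine core hδ G g hG F hF hgp (E := E) (fun s i => ψ (X (s, i))) ?_ ?_ O ?_ k0 ?_ J hJ ?_
    · intro s hs
      apply hk0
      apply hker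
      rw [hf]
      refine Finset.prod_eq_zero (Finset.mem_univ s) ?_
      have h1 : (fun i => ψ (X (s, i))) = fun i => (0 : E) * (fun _ => (0 : E)) i := by
        rw [hs]
        funext i
        simp
      rw [h1, scale 0 _ (F k0) (hF k0), zero_pow (by omega), zero_mul]
    · intro s k
      rw [hblk, hψ]
      exact hBp' (Ideal.subset_span ⟨(s, k), rfl⟩)
    · intro a
      have h1 := hO1 (C a)
      have h2 : (ψ.comp (phi : MvPolynomial (Fin q) K →+* MvPolynomial (Fin δ × Fin n) K)) (C a) =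
          algebraMap K E a := by
        change ψ (aeval Pr (C a)) = ψ (C a)
        rw [aeval_C]
        rfl
      rw [h2] at h1
      exact h1
    · rw [← hf]
      intro h1
      exact hk0 ((hO2 (X k0)).2 h1)
    · intro j hj
      rw [← hf]
      exact (hO2 (X j)).1 (hJQ j hj)

end Pool.Agent.H264.TwoT4
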